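import Pool.Agent.H86.NF.Un

/-!
# Height coordinates (helper86)

`Ij v j`: the ideal generated by `v l`, `l < j` (`v : Fin r → B`; `v l` is the classical `v_(l+1)`).
`HT p v g`: for every `j < r` the coefficients of `g` of index `< p ^ (j + 1)` are in `Ij v j`, the one of index
`p ^ (j + 1)` is `unit * v j` modulo `Ij v j`; the coefficients of index `< p ^ (r + 1)` are in `Ij v r` and the one
of index `p ^ (r + 1)` is a unit modulo `Ij v r`.
-/

open PowerSeries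

namespace Pool.Agent.H86.NF

variable {B : Type*} [CommRing B]

/-- the ideal generated by the first `j` coordinates -/
def Ij {r : ℕ} (v : Fin r → B) (j : ℕ) : Ideal B := Ideal.span (v '' {l | (l : ℕ) < j})

/-- height coordinates of a series (to be used for `g = [p]_F`) -/
structure HT (p : ℕ) {r : ℕ} (v : Fin r → B) (g : B⟦X⟧) : Prop where
  low : ∀ (j : Fin r) (i : ℕ), i < p ^ ((j : ℕ) + 1) → coeff i g ∈ Ij v j
  lead : ∀ j : Fin r, ∃ ε : B, IsUnit ε ∧ coeff (p ^ ((j : ℕ) + 1)) g - ε * v j ∈ Ij v j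
  last : ∀ i : ℕ, i < p ^ (r + 1) → coeff i g ∈ Ij v r
  top : ∃ ε : B, IsUnit ε ∧ coeff (p ^ (r + 1)) g - ε ∈ Ij v r

/-- the coordinates read off from a series -/
noncomputable def cf (p : ℕ) (r : ℕ) (g : B⟦X⟧) (l : Fin r) : B := coeff (p ^ ((l : ℕ) + 1)) g

theorem mem_Ij_of_lt {r : ℕ} (v : Fin r → B) {j : ℕ} {l : Fin r} (h : (l : ℕ) < j) : v l ∈ Ij v j :=
  Ideal.subset_span ⟨l, h, rfl⟩

theorem Ij_mono {r : ℕ} (v : Fin r → B) {i j : ℕ} (h : i ≤ j) : Ij v i ≤ Ij v j := by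
  apply Ideal.span_mono
  apply Set.image_mono
  intro l hl
  exact lt_of_lt_of_le hl h

theorem Ij_zero {r : ℕ} (v : Fin r → B) : Ij v 0 = ⊥ := by
  rw [Ij, Ideal.span_eq_bot]
  rintro _ ⟨l, hl, rfl⟩
  exact absurd hl (Nat.not_lt_zero _)

theorem Ij_last {r : ℕ} (v : Fin r → B) : Ij v r = Ideal.span (Set.range v) := by
  rw [Ij]
  congr 1
  ext x
  constructor
  · rintro ⟨l, _, rfl⟩
    exact ⟨l, rfl⟩
  · rintro ⟨l, rfl⟩
    exact ⟨l, l.2, rfl⟩

theorem Ij_succ {r : ℕ} (v : Fin r → B) (j : Fin r) :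
    Ij v ((j : ℕ) + 1) = Ij v j ⊔ Ideal.span {v j} := by
  rw [Ij, Ij, ← Ideal.span_union]
  congr 1
  ext x
  constructor
  · rintro ⟨l, hl, rfl⟩
    rcases Nat.lt_succ_iff_lt_or_eq.mp hl with h | h
    · exact Or.inl ⟨l, h, rfl⟩
    · right
      rw [Fin.ext h]
      rfl
  · rintro (⟨l, hl, rfl⟩ | h)
    · exact ⟨l, Nat.lt_succ_of_lt hl, rfl⟩
    · rw [Set.mem_singleton_iff] at h
      subst h
      exact ⟨j, Nat.lt_succ_self _, rfl⟩

theorem map_Ij {S : Type*} [CommRing S] (φ : B →+* S) {r : ℕ} (v : Fin r → B) (j : ℕ) :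
    (Ij v j).map φ = Ij (fun l => φ (v l)) j := by
  rw [Ij, Ij, Ideal.map_span, ← Set.image_comp]
  rfl

/-- the ideals read off from two systems of coordinates agree -/
theorem Ij_eq {r : ℕ} {v c : Fin r → B}
    (h : ∀ j : Fin r, ∃ ε : B, IsUnit ε ∧ c j - ε * v j ∈ Ij v j) :
    ∀ j, j ≤ r → Ij c j = Ij v j := by
  intro j
  induction j with
  | zero =>
    intro _
    rw [Ij_zero, Ij_zero]
  | succ j ih =>
    intro hj
    have hjr : j < r := hj
    have h1 := ih hjr.le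
    have h2 := Ij_succ c ⟨j, hjr⟩
    have h3 := Ij_succ v ⟨j, hjr⟩
    simp only at h2 h3
    rw [h2, h3, h1]
    obtain ⟨ε, hε, hc⟩ := h ⟨j, hjr⟩
    simp only at hc
    apply le_antisymm
    · apply sup_le le_sup_left
      rw [Ideal.span_singleton_le_iff_mem]
      have h4 : c ⟨j, hjr⟩ = (c ⟨j, hjr⟩ - ε * v ⟨j, hjr⟩) + ε * v ⟨j, hjr⟩ := by ring
      rw [h4]
      exact add_mem (Ideal.mem_sup_left hc)
        (Ideal.mem_sup_right (Ideal.mul_mem_left _ _ (Ideal.mem_span_singleton_self _)))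
    · apply sup_le le_sup_left
      rw [Ideal.span_singleton_le_iff_mem]
      rw [← Ideal.unit_mul_mem_iff_mem _ hε]
      have h4 : ε * v ⟨j, hjr⟩ = c ⟨j, hjr⟩ - (c ⟨j, hjr⟩ - ε * v ⟨j, hjr⟩) := by ring
      rw [h4]
      exact sub_mem (Ideal.mem_sup_right (Ideal.mem_span_singleton_self _)) (Ideal.mem_sup_left hc)

/-- the coordinates read off from `g` generate the same ideals -/
theorem HT.span_eq {p r : ℕ} {v : Fin r → B} {g : B⟦X⟧} (h : HT p v g) {j : ℕ} (hj : j ≤ r) :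
    Ij (cf p r g) j = Ij v j := Ij_eq h.lead j hj

/-- change of coordinates -/
theorem HT.change {p r : ℕ} {v c : Fin r → B} {g : B⟦X⟧} (h : HT p v g)
    (hc : ∀ j : Fin r, ∃ ε : B, IsUnit ε ∧ c j - ε * v j ∈ Ij v j) : HT p c g := by
  have hI := Ij_eq hc
  refine ⟨fun j i hi => ?_, fun j => ?_, fun i hi => ?_, ?_⟩
  · rw [hI j j.2.le]
    exact h.low j i hi
  · obtain ⟨ε, hε, h1⟩ := h.lead j
    obtain ⟨δ, ⟨δ, rfl⟩, h2⟩ := hc j
    refine ⟨ε * ↑δ⁻¹, hε.mul (Units.isUnit _), ?_⟩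
    rw [hI j j.2.le]
    have h3 : coeff (p ^ ((j : ℕ) + 1)) g - ε * ↑δ⁻¹ * c j =
        (coeff (p ^ ((j : ℕ) + 1)) g - ε * v j) - ε * ↑δ⁻¹ * (c j - δ * v j) := by
      have : ε * ↑δ⁻¹ * (↑δ * v j) = ε * v j := by
        rw [mul_assoc, ← mul_assoc _ _ (v j), Units.inv_mul, one_mul]
      rw [mul_sub, this]
      ring
    rw [h3]
    exact sub_mem h1 (Ideal.mul_mem_left _ _ h2)
  · rw [hI r le_rfl]
    exact h.last i hi
  · rw [hI r le_rfl]
    exact h.top

/-- `g` has height coordinates given by its own coefficients, with `ε = 1` -/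
theorem HT.self {p r : ℕ} {v : Fin r → B} {g : B⟦X⟧} (h : HT p v g) : HT p (cf p r g) g :=
  h.change h.lead

theorem HT.map {S : Type*} [CommRing S] (φ : B →+* S) {p r : ℕ} {v : Fin r → B} {g : B⟦X⟧}
    (h : HT p v g) : HT p (fun l => φ (v l)) (PowerSeries.map φ g) := by
  have hm : ∀ {x : B} {j : ℕ}, x ∈ Ij v j → φ x ∈ Ij (fun l => φ (v l)) j := by
    intro x j hx
    rw [← map_Ij]
    exact Ideal.mem_map_of_mem φ hx
  refine ⟨fun j i hi => ?_, fun j => ?_, fun i hi => ?_, ?_⟩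
  · rw [coeff_map]
    exact hm (h.low j i hi)
  · obtain ⟨ε, hε, h1⟩ := h.lead j
    refine ⟨φ ε, hε.map φ, ?_⟩
    have h2 := hm h1
    rwa [map_sub, map_mul, ← coeff_map] at h2
  · rw [coeff_map]
    exact hm (h.last i hi)
  · obtain ⟨ε, hε, h1⟩ := h.top
    refine ⟨φ ε, hε.map φ, ?_⟩
    have h2 := hm h1
    rwa [map_sub, ← coeff_map] at h2

theorem X_pow_dvd_cm_left {d : ℕ} {u g : B⟦X⟧} (hd : 1 ≤ d) (hu0 : constantCoeff u = 0)
    (hg : X ^ d ∣ g) : X ^ d ∣ cm u g ∧ coeff d (cm u g) = coeff 1 u * coeff d g := by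
  have hg0 : constantCoeff g = 0 := by
    rw [← X_dvd_iff]
    exact (dvd_pow_self X (by omega)).trans hg
  obtain ⟨u', hu'⟩ := X_dvd_iff.mpr hu0
  have h1 : cm u g = g * cm u' g := by
    conv_lhs => rw [hu']
    rw [cm, subst_mul (hsub hg0), subst_X (hsub hg0)]
  refine ⟨by rw [h1]; exact Dvd.dvd.mul_right hg _, ?_⟩
  obtain ⟨s, hs⟩ := hg
  have h2 : coeff d (cm u g) = constantCoeff s * constantCoeff (cm u' g) := by
    have h0 : cm u g = X ^ d * (s * cm u' g) := by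
      rw [h1, ← mul_assoc, ← hs]
    rw [h0, coeff_X_pow_mul', if_pos le_rfl, Nat.sub_self, coeff_zero_eq_constantCoeff_apply,
      map_mul]
  have h3 : constantCoeff (cm u' g) = coeff 1 u := by
    have h4 : u' = X * (PowerSeries.mk fun n => coeff (n + 1) u') + C (constantCoeff u') := by
      rw [mul_comm]
      exact eq_shift_mul_X_add_const u'
    have h5 : cm u' g = g * cm (PowerSeries.mk fun n => coeff (n + 1) u') g + C (constantCoeff u') := by
      conv_lhs => rw [h4]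
      rw [comp_add _ _ hg0, cm, subst_mul (hsub hg0), subst_X (hsub hg0), cm, subst_C]
      rfl
    rw [h5, map_add, map_mul, hg0, zero_mul, zero_add, constantCoeff_C, hu', ← pow_one X,
      coeff_X_pow_mul', if_pos le_rfl, Nat.sub_self, coeff_zero_eq_constantCoeff_apply]
  rw [h2, h3, hs, coeff_X_pow_mul', if_pos le_rfl, Nat.sub_self, coeff_zero_eq_constantCoeff_apply,
    mul_comm]

theorem X_pow_dvd_cm_right {d : ℕ} {u h : B⟦X⟧} (hu0 : constantCoeff u = 0) (hh : X ^ d ∣ h) :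
    X ^ d ∣ cm h u ∧ coeff d (cm h u) = coeff d h * (coeff 1 u) ^ d := by
  obtain ⟨t, rfl⟩ := hh
  obtain ⟨u', hu'⟩ := X_dvd_iff.mpr hu0
  have h1 : cm (X ^ d * t) u = X ^ d * (u' ^ d * cm t u) := by
    rw [cm, subst_mul (hsub hu0), subst_pow (hsub hu0), subst_X (hsub hu0)]
    conv_lhs => rw [hu']
    rw [mul_pow, mul_assoc, ← hu']
  have h2 : coeff 1 u = constantCoeff u' := by
    rw [hu', ← pow_one X, coeff_X_pow_mul', if_pos le_rfl, Nat.sub_self,
      coeff_zero_eq_constantCoeff_apply]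
  have h3 : constantCoeff (cm t u) = constantCoeff t := by
    have h4 : t = X * (PowerSeries.mk fun n => coeff (n + 1) t) + C (constantCoeff t) := by
      rw [mul_comm]
      exact eq_shift_mul_X_add_const t
    have h5 : cm t u = u * cm (PowerSeries.mk fun n => coeff (n + 1) t) u + C (constantCoeff t) := by
      conv_lhs => rw [h4]
      rw [comp_add _ _ hu0, cm, subst_mul (hsub hu0), subst_X (hsub hu0), cm, subst_C]
      rfl
    rw [h5, map_add, map_mul, hu0, zero_mul, zero_add, constantCoeff_C]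
  refine ⟨by rw [h1]; exact Dvd.intro _ rfl, ?_⟩
  rw [h1, coeff_X_pow_mul', if_pos le_rfl, Nat.sub_self, coeff_zero_eq_constantCoeff_apply, map_mul,
    map_pow, h3, ← h2, coeff_X_pow_mul', if_pos le_rfl, Nat.sub_self,
    coeff_zero_eq_constantCoeff_apply, mul_comm]

/-- conjugation and leading coefficients modulo an ideal -/
theorem conj_lead {I : Ideal B} {d : ℕ} (hd : 1 ≤ d) {u g g' : B⟦X⟧} (hu0 : constantCoeff u = 0)
    (hu : IsUnit (coeff 1 u)) (hg : ∀ i < d, coeff i g ∈ I) (h : cm u g = cm g' u)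
    (hg0 : constantCoeff g = 0) :
    (∀ i < d, coeff i g' ∈ I) ∧
      coeff d g' * (coeff 1 u) ^ d - coeff 1 u * coeff d g ∈ I := by
  set π := Ideal.Quotient.mk I with hπ
  have hX : ∀ f : B⟦X⟧, X ^ d ∣ PowerSeries.map π f ↔ ∀ i < d, coeff i f ∈ I := by
    intro f
    rw [X_pow_dvd_iff]
    refine forall₂_congr fun i _ => ?_
    rw [coeff_map, Ideal.Quotient.eq_zero_iff_mem]
  obtain ⟨v, hv0, huv, hvu⟩ := exists_inv hu0 hu
  have hmu0 : constantCoeff (PowerSeries.map π u) = 0 := by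
    rw [← coeff_zero_eq_constantCoeff_apply, coeff_map, coeff_zero_eq_constantCoeff_apply, hu0,
      map_zero]
  have hmv0 : constantCoeff (PowerSeries.map π v) = 0 := by
    rw [← coeff_zero_eq_constantCoeff_apply, coeff_map, coeff_zero_eq_constantCoeff_apply, hv0,
      map_zero]
  have h1 := X_pow_dvd_cm_left hd hmu0 ((hX g).mpr hg)
  rw [← map_comp π hg0, h, map_comp π hu0] at h1
  have h2 : PowerSeries.map π g' = cm (cm (PowerSeries.map π g') (PowerSeries.map π u))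
      (PowerSeries.map π v) := by
    rw [comp_assoc _ hmu0 hmv0, ← map_comp π hv0, huv, map_X, comp_X]
  have h3 : X ^ d ∣ PowerSeries.map π g' := by
    rw [h2]
    exact (X_pow_dvd_cm_right hmv0 h1.1).1
  refine ⟨(hX g').mp h3, ?_⟩
  have h4 := (X_pow_dvd_cm_right hmu0 h3).2
  rw [h1.2] at h4
  rw [← Ideal.Quotient.eq_zero_iff_mem, map_sub, map_mul, map_mul, map_pow, sub_eq_zero]
  rw [coeff_map, coeff_map, coeff_map] at h4
  exact h4.symm

/-- **The height coordinates are invariant under conjugation.** -/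
theorem HT.conj {p r : ℕ} (hp : 0 < p) {v : Fin r → B} {u g g' : B⟦X⟧} (h : HT p v g)
    (hu0 : constantCoeff u = 0) (hu : IsUnit (coeff 1 u)) (hg0 : constantCoeff g = 0)
    (hc : cm u g = cm g' u) : HT p v g' := by
  refine ⟨fun j => ?_, fun j => ?_, ?_, ?_⟩
  · exact (conj_lead (Nat.one_le_pow _ _ hp) hu0 hu (h.low j) hc hg0).1
  · have h1 := (conj_lead (Nat.one_le_pow _ _ hp) hu0 hu (h.low j) hc hg0).2
    obtain ⟨ε, hε, h2⟩ := h.lead j
    obtain ⟨a, ha⟩ := hu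
    rw [← ha] at h1
    refine ⟨↑(a⁻¹ ^ (p ^ ((j : ℕ) + 1))) * (a * ε), (Units.isUnit _).mul ((Units.isUnit a).mul hε), ?_⟩
    have h3 : coeff (p ^ ((j : ℕ) + 1)) g' - ↑(a⁻¹ ^ (p ^ ((j : ℕ) + 1))) * (a * ε) * v j =
        ↑(a⁻¹ ^ (p ^ ((j : ℕ) + 1))) *
          (coeff (p ^ ((j : ℕ) + 1)) g' * (a : B) ^ (p ^ ((j : ℕ) + 1)) -
            a * coeff (p ^ ((j : ℕ) + 1)) g) +
        ↑(a⁻¹ ^ (p ^ ((j : ℕ) + 1))) * a * (coeff (p ^ ((j : ℕ) + 1)) g - ε * v j) := by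
      have h4 : (↑(a⁻¹ ^ (p ^ ((j : ℕ) + 1))) : B) * (a : B) ^ (p ^ ((j : ℕ) + 1)) = 1 := by
        rw [← Units.val_pow_eq_pow_val, ← Units.val_mul, ← mul_pow, inv_mul_cancel, one_pow,
          Units.val_one]
      linear_combination (-coeff (p ^ ((j : ℕ) + 1)) g') * h4
    rw [h3]
    exact add_mem (Ideal.mul_mem_left _ _ h1) (Ideal.mul_mem_left _ _ h2)
  · exact (conj_lead (Nat.one_le_pow _ _ hp) hu0 hu h.last hc hg0).1
  · have h1 := (conj_lead (Nat.one_le_pow _ _ hp) hu0 hu h.last hc hg0).2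
    obtain ⟨ε, hε, h2⟩ := h.top
    obtain ⟨a, ha⟩ := hu
    rw [← ha] at h1
    refine ⟨↑(a⁻¹ ^ (p ^ (r + 1))) * (a * ε), (Units.isUnit _).mul ((Units.isUnit a).mul hε), ?_⟩
    have h3 : coeff (p ^ (r + 1)) g' - ↑(a⁻¹ ^ (p ^ (r + 1))) * (a * ε) =
        ↑(a⁻¹ ^ (p ^ (r + 1))) *
          (coeff (p ^ (r + 1)) g' * (a : B) ^ (p ^ (r + 1)) - a * coeff (p ^ (r + 1)) g) +
        ↑(a⁻¹ ^ (p ^ (r + 1))) * a * (coeff (p ^ (r + 1)) g - ε) := by
      have h4 : (↑(a⁻¹ ^ (p ^ (r + 1))) : B) * (a : B) ^ (p ^ (r + 1)) = 1 := by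
        rw [← Units.val_pow_eq_pow_val, ← Units.val_mul, ← mul_pow, inv_mul_cancel, one_pow,
          Units.val_one]
      linear_combination (-coeff (p ^ (r + 1)) g') * h4
    rw [h3]
    exact add_mem (Ideal.mul_mem_left _ _ h1) (Ideal.mul_mem_left _ _ h2)

end Pool.Agent.H86.NF
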