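import Pool.Agent.H86.NF.Ht

/-!
# Pairs with trivial reduction act trivially (helper86)

`gen'`: `A` a complete `k`-algebra with `A = k + m`, `m = (v_0, .., v_(r-1))`, `g` a series over `A` with height
coordinates `v`, whose reduction is conjugate over `k` to `X ^ (p ^ (r + 1))`.  If `φ : A →ₐ[k] A` and `f ≡ X mod m`
intertwines `g` and `φ g`, then `φ = id`.
-/

open PowerSeries

namespace Pool.Agent.H86.NF

theorem gen_abs {k A : Type*} [CommRing k] [CommRing A] [Algebra k A] {m : Ideal A}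
    [IsHausdorff m A] {r : ℕ} {c : Fin r → A} (hm : m = Ideal.span (Set.range c))
    (hk : ∀ a : A, ∃ x : k, a - algebraMap k A x ∈ m) (φ : A →ₐ[k] A)
    (hc : ∀ j, φ (c j) = c j) : φ = AlgHom.id k A := by
  have key : ∀ N : ℕ, ∀ a : A, φ a - a ∈ m ^ N := by
    intro N
    induction N with
    | zero =>
      intro a
      rw [pow_zero, Ideal.one_eq_top]
      trivial
    | succ N ih =>
      intro a
      obtain ⟨x, hx⟩ := hk a
      have h1 : φ a - a = φ (a - algebraMap k A x) - (a - algebraMap k A x) := by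
        rw [map_sub, AlgHom.commutes]
        ring
      rw [h1]
      have h2 : ∀ b ∈ Ideal.span (Set.range c), φ b - b ∈ m ^ (N + 1) := by
        intro b hb
        induction hb using Submodule.span_induction with
        | mem b hb =>
          obtain ⟨j, rfl⟩ := hb
          rw [hc, sub_self]
          exact zero_mem _
        | zero =>
          rw [map_zero, sub_self]
          exact zero_mem _
        | add b b' _ _ h h' =>
          rw [map_add, add_sub_add_comm]
          exact add_mem h h'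
        | smul t b hb h =>
          have h3 : φ (t • b) - t • b = φ t * (φ b - b) + (φ t - t) * b := by
            rw [smul_eq_mul, map_mul]
            ring
          rw [h3]
          refine add_mem (Ideal.mul_mem_left _ _ h) ?_
          rw [pow_succ]
          refine Ideal.mul_mem_mul (ih t) ?_
          rw [hm]
          exact hb
      exact h2 _ (hm ▸ hx)
  refine AlgHom.ext fun a => ?_
  rw [AlgHom.id_apply, ← sub_eq_zero]
  refine IsHausdorff.haus ‹IsHausdorff m A› _ fun N => ?_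
  rw [SModEq.zero, smul_eq_mul, Ideal.mul_top]
  exact key N a

theorem cz_map {R S : Type*} [CommRing R] [CommRing S] (φ : R →+* S) {f : R⟦X⟧}
    (h : constantCoeff f = 0) : constantCoeff (PowerSeries.map φ f) = 0 := by
  rw [← coeff_zero_eq_constantCoeff_apply, coeff_map, coeff_zero_eq_constantCoeff_apply, h, map_zero]

theorem Sm.map {R S : Type*} [CommRing R] [CommRing S] {I : Ideal R} {J : Ideal S} (φ : R →+* S)
    (hφ : ∀ a ∈ I, φ a ∈ J) {f g : R⟦X⟧} (h : Sm I f g) :
    Sm J (PowerSeries.map φ f) (PowerSeries.map φ g) := by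
  intro i
  rw [coeff_map, coeff_map, ← map_sub]
  exact hφ _ (h i)

theorem Nrm.map {R S : Type*} [CommRing R] [CommRing S] (φ : R →+* S) {q : ℕ} {g : R⟦X⟧}
    (h : Nrm q g) : Nrm q (PowerSeries.map φ g) := by
  intro i hi
  rw [coeff_map, h i hi]
  split_ifs
  · exact map_one φ
  · exact map_zero φ

/-- a ring homomorphism together with an intertwining series fixes the normal form -/
theorem nf_fixed {A : Type*} [CommRing A] {p a q : ℕ} [Fact p.Prime] [CharP A p] (ha : a ≠ 0)
    (hq : q = p ^ a) {m : Ideal A} [IsAdicComplete m A] {g g' u : A⟦X⟧} (hg0 : constantCoeff g = 0)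
    (hu0 : constantCoeff u = 0) (hu : Sm m u X) (hg'0 : constantCoeff g' = 0)
    (hg'q : Sm m g' (X ^ q)) (hn : Nrm q g') (huc : cm u g = cm g' u) (φ : A →+* A)
    (hφ : ∀ a ∈ m, φ a ∈ m) {f : A⟦X⟧} (hf0 : constantCoeff f = 0) (hf : Sm m f X)
    (hc : cm f g = cm (PowerSeries.map φ g) f) :
    cm (PowerSeries.map φ u) f = u ∧ PowerSeries.map φ g' = g' := by
  have h1 : Sm m (PowerSeries.map φ g') (X ^ q) := by
    have h := hg'q.map φ hφ
    rwa [map_pow, map_X] at h
  have h2 : Sm m (PowerSeries.map φ u) X := by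
    have h := hu.map φ hφ
    rwa [map_X] at h
  have h3 : cm (PowerSeries.map φ u) (PowerSeries.map φ g) =
      cm (PowerSeries.map φ g') (PowerSeries.map φ u) := by
    rw [← map_comp φ hg0, ← map_comp φ hu0, huc]
  have hmu0 := cz_map φ hu0
  have h4 : cm (cm (PowerSeries.map φ u) f) g =
      cm (PowerSeries.map φ g') (cm (PowerSeries.map φ u) f) := by
    rw [comp_assoc _ hf0 hg0, hc, ← comp_assoc _ (cz_map φ hg0) hf0, h3, comp_assoc _ hmu0 hf0]
  have h5 : Sm m (cm (PowerSeries.map φ u) f) X := by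
    have h := h2.comp hf0 constantCoeff_X hf
    rwa [comp_X] at h
  have h6 := nf_unique ha hq hg0 hg'0 hg'q h1 hn (hn.map φ) hu0 (cz_comp hmu0 hf0) hu h5 huc h4
  exact ⟨h6.1.symm, h6.2.symm⟩

theorem gen {k A : Type*} [CommRing k] [CommRing A] [Algebra k A] {p : ℕ} [Fact p.Prime]
    [CharP A p] {m : Ideal A} [IsAdicComplete m A] {r : ℕ} {v : Fin r → A}
    (hm : m = Ideal.span (Set.range v)) (hk : ∀ a : A, ∃ x : k, a - algebraMap k A x ∈ m)
    {g : A⟦X⟧} (hg0 : constantCoeff g = 0) (hgq : Sm m g (X ^ (p ^ (r + 1)))) (hT : HT p v g)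
    (φ : A →ₐ[k] A) (hφ : ∀ a ∈ m, φ a ∈ m) {f : A⟦X⟧} (hf0 : constantCoeff f = 0)
    (hf : Sm m f X) (hc : cm f g = cm (PowerSeries.map (φ : A →+* A) g) f) :
    φ = AlgHom.id k A := by
  obtain ⟨u, g', hu0, huX, hg'0, hg'q, hn, huc⟩ :=
    nf_exists (Nat.succ_ne_zero r) rfl m hg0 hgq
  have h1 := (nf_fixed (Nat.succ_ne_zero r) rfl hg0 hu0 huX hg'0 hg'q hn huc (φ : A →+* A) hφ hf0
    hf hc).2
  have h2 : HT p v g' := hT.conj (Nat.Prime.pos Fact.out) hu0 (isUnit_one_of_sm huX) hg0 huc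
  refine gen_abs (c := cf p r g') ?_ hk φ fun j => ?_
  · rw [hm, ← Ij_last v, ← Ij_last (cf p r g'), h2.span_eq le_rfl]
  · have h3 := congrArg (coeff (p ^ ((j : ℕ) + 1))) h1
    rw [coeff_map] at h3
    exact h3

/-- **GEN**: the same with a reduction which is only conjugate to `X ^ (p ^ (r + 1))` over `k`. -/
theorem gen' {k A : Type*} [CommRing k] [CommRing A] [Algebra k A] {p : ℕ} [Fact p.Prime]
    [CharP A p] {m : Ideal A} [IsAdicComplete m A] {r : ℕ} {v : Fin r → A}
    (hm : m = Ideal.span (Set.range v)) (hk : ∀ a : A, ∃ x : k, a - algebraMap k A x ∈ m)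
    {g : A⟦X⟧} (hg0 : constantCoeff g = 0) (hT : HT p v g)
    {β : k⟦X⟧} (hβ0 : constantCoeff β = 0) (hβ : IsUnit (coeff 1 β))
    (hβg : Sm m (cm (PowerSeries.map (algebraMap k A) β) g)
      ((PowerSeries.map (algebraMap k A) β) ^ (p ^ (r + 1))))
    (φ : A →ₐ[k] A) (hφ : ∀ a ∈ m, φ a ∈ m) {f : A⟦X⟧} (hf0 : constantCoeff f = 0)
    (hf : Sm m f X) (hc : cm f g = cm (PowerSeries.map (φ : A →+* A) g) f) :
    φ = AlgHom.id k A := by
  set b : A⟦X⟧ := PowerSeries.map (algebraMap k A) β with hb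
  have hb0 : constantCoeff b = 0 := cz_map _ hβ0
  have hb1 : IsUnit (coeff 1 b) := by
    rw [hb, coeff_map]
    exact hβ.map _
  have hφb : PowerSeries.map (φ : A →+* A) b = b := by
    ext i
    rw [hb, coeff_map, coeff_map]
    exact φ.commutes _
  obtain ⟨c, hc0, hbc, hcb⟩ := exists_inv hb0 hb1
  have hφc : PowerSeries.map (φ : A →+* A) c = c := by
    have h1 := congrArg (PowerSeries.map (φ : A →+* A)) hbc
    rw [map_comp _ hc0, hφb, map_X] at h1
    calc PowerSeries.map (φ : A →+* A) c = cm X (PowerSeries.map (φ : A →+* A) c) :=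
          (X_comp (cz_map _ hc0)).symm
      _ = cm (cm c b) (PowerSeries.map (φ : A →+* A) c) := by rw [hcb]
      _ = cm c (cm b (PowerSeries.map (φ : A →+* A) c)) := comp_assoc _ hb0 (cz_map _ hc0)
      _ = c := by rw [h1, comp_X]
  -- conjugate everything by `b`
  set g₁ : A⟦X⟧ := cm b (cm g c) with hg₁
  set f₁ : A⟦X⟧ := cm b (cm f c) with hf₁
  have hgc0 : constantCoeff (cm g c) = 0 := cz_comp hg0 hc0
  have hfc0 : constantCoeff (cm f c) = 0 := cz_comp hf0 hc0
  have hg₁0 : constantCoeff g₁ = 0 := cz_comp hb0 hgc0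
  have hf₁0 : constantCoeff f₁ = 0 := cz_comp hb0 hfc0
  have e1 : cm b g = cm g₁ b := by
    rw [hg₁, comp_assoc b hgc0 hb0, comp_assoc g hc0 hb0, hcb, comp_X]
  have hT₁ : HT p v g₁ := hT.conj (Nat.Prime.pos Fact.out) hb0 hb1 hg0 e1
  have hq₁ : Sm m g₁ (X ^ (p ^ (r + 1))) := by
    have h1 := hβg.comp hc0 hc0 (Sm.refl m c)
    rw [comp_assoc b hg0 hc0] at h1
    have h2 : cm (b ^ (p ^ (r + 1))) c = X ^ (p ^ (r + 1)) := by
      rw [cm, subst_pow (hsub hc0)]
      have h3 : PowerSeries.subst c b = X := hbc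
      rw [h3]
    rw [h2] at h1
    exact h1
  have hfX : Sm m f₁ X := by
    have h1 := (Sm.refl m b).comp hfc0 (cz_comp constantCoeff_X hc0)
      (hf.comp hc0 hc0 (Sm.refl m c))
    rw [X_comp hc0, hbc] at h1
    exact h1
  have hφg : PowerSeries.map (φ : A →+* A) g₁ = cm b (cm (PowerSeries.map (φ : A →+* A) g) c) := by
    rw [hg₁, map_comp _ hgc0, hφb, map_comp _ hc0, hφc]
  have hcc : cm f₁ g₁ = cm (PowerSeries.map (φ : A →+* A) g₁) f₁ := by
    have hφg0 := cz_map (φ : A →+* A) hg0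
    rw [hφg, hf₁, hg₁, comp_assoc b hfc0 (cz_comp hb0 hgc0), comp_assoc f hc0 (cz_comp hb0 hgc0),
      ← comp_assoc c hb0 hgc0, hcb, X_comp hgc0, ← comp_assoc f hg0 hc0, hc,
      comp_assoc _ hf0 hc0, comp_assoc b (cz_comp hφg0 hc0) (cz_comp hb0 hfc0),
      comp_assoc _ hc0 (cz_comp hb0 hfc0), ← comp_assoc c hb0 hfc0, hcb, X_comp hfc0]
  exact gen hm hk hg₁0 hq₁ hT₁ φ hφ hf₁0 hfX hcc

end Pool.Agent.H86.NF
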