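import Pool.Agent.H86.NF.Nfg
import Pool.Agent.H86.NF.Gen

/-!
# Uniqueness of liftings of arbitrary homomorphisms; pairs with trivial reduction, general reference (helper86)

`un2`: `UN` without the hypothesis that the linear coefficient is a unit.  `ggen`: the pairs `(φ, f)`, `f ≡ X`, which
intertwine `g` and `φ g`, are trivial, `g` with height coordinates generating `m`, `A = k + m`.
-/

open PowerSeries

namespace Pool.Agent.H86.NF

variable {B : Type*} [CommRing B]

/-- composition of a series in `X ^ p` with two series congruent modulo `I ^ j` -/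
theorem pert2 {p : ℕ} [Fact p.Prime] [CharP B p] {I : Ideal B} {j : ℕ} (hj : 1 ≤ j) {g u w : B⟦X⟧}
    (hp : ∀ i, ¬ p ∣ i → coeff i g = 0) (hu0 : constantCoeff u = 0) (hw0 : constantCoeff w = 0)
    (hw : Sm (I ^ j) u w) : Sm (I ^ (j + 1)) (cm g u) (cm g w) := by
  have hpp : p.Prime := Fact.out
  have hp0 : p ≠ 0 := hpp.ne_zero
  set h : B⟦X⟧ := PowerSeries.mk fun i => coeff (p * i) g with hh
  have hXp : constantCoeff (X ^ p : B⟦X⟧) = 0 := by
    rw [map_pow, constantCoeff_X, zero_pow hp0]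
  have hg : g = cm h (X ^ p : B⟦X⟧) := by
    ext i
    rw [coeff_comp_X_pow hp0]
    split_ifs with hd
    · obtain ⟨c, rfl⟩ := hd
      rw [Nat.mul_div_cancel_left _ hpp.pos, hh, coeff_mk]
    · exact hp i hd
  have h2 : Sm (I ^ (j + 1)) (u ^ p) (w ^ p) := by
    intro i
    have : CharP B⟦X⟧ p := charP_of_injective_ringHom (f := C (R := B)) C_injective p
    rw [← map_sub, ← sub_pow_char (R := B⟦X⟧)]
    have h3 : ∀ n, ∀ i, coeff i ((u - w) ^ n) ∈ (I ^ j) ^ n := by
      intro n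
      induction n with
      | zero =>
        intro i
        rw [pow_zero, pow_zero, Ideal.one_eq_top]
        trivial
      | succ n ih =>
        intro i
        rw [pow_succ (u - w) n, coeff_mul, pow_succ (I ^ j) n]
        refine Ideal.sum_mem _ fun x _ => Ideal.mul_mem_mul (ih x.1) ?_
        rw [map_sub]
        exact hw x.2
    have h4 : (I ^ j) ^ p ≤ I ^ (j + 1) := by
      rw [← pow_mul]
      apply Ideal.pow_le_pow_right
      have := hpp.two_le
      nlinarith
    exact h4 (h3 p i)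
  rw [hg, comp_assoc h hXp hu0, comp_assoc h hXp hw0, X_pow_comp hu0, X_pow_comp hw0]
  refine (Sm.refl _ h).comp ?_ ?_ h2
  · rw [map_pow, hu0, zero_pow hp0]
  · rw [map_pow, hw0, zero_pow hp0]

/-- **UN** for arbitrary homomorphisms -/
theorem un2 {p : ℕ} [Fact p.Prime] [CharP B p] {I : Ideal B} [IsHausdorff I B] {d : ℕ}
    (hd1 : 1 ≤ d) {g g₁ u₁ u₂ : B⟦X⟧} (hg0 : constantCoeff g = 0)
    (hp : ∀ i, ¬ p ∣ i → coeff i g₁ = 0) (hd : ∀ i < d, coeff i g ∈ I)
    (hu : IsUnit (coeff d g)) (hu₁ : constantCoeff u₁ = 0) (hu₂ : constantCoeff u₂ = 0)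
    (h12 : Sm I u₁ u₂) (e₁ : cm u₁ g = cm g₁ u₁) (e₂ : cm u₂ g = cm g₁ u₂) : u₁ = u₂ := by
  have key : ∀ j, Sm (I ^ (j + 1)) u₁ u₂ := by
    intro j
    induction j with
    | zero =>
      rw [zero_add, pow_one]
      exact h12
    | succ j ih =>
      have k1 := pert2 (Nat.le_add_left 1 j) hp hu₁ hu₂ ih
      rw [← e₁, ← e₂] at k1
      have k2 : ∀ i, coeff i (cm (u₁ - u₂) g) ∈ I ^ (j + 1 + 1) := by
        intro i
        have h1 : cm (u₁ - u₂) g = cm u₁ g - cm u₂ g := subst_sub (hsub hg0) u₁ u₂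
        rw [h1, map_sub]
        exact k1 i
      have k3 := left_cancel (K := I ^ (j + 1)) (I := I) (J := I ^ (j + 1 + 1))
        (by rw [← pow_succ]) hd1 hg0 hd hu (fun i => by rw [map_sub]; exact ih i) k2
      intro i
      have := k3 i
      rwa [map_sub] at this
  refine sm_of_all (I := I) fun j => ?_
  exact (key j).mono (Ideal.pow_le_pow_right (Nat.le_succ j))

/-- **GEN**, arbitrary reference series `g₀` over `k`. -/
theorem ggen {k A : Type*} [CommRing k] [CommRing A] [Algebra k A] {p : ℕ} [Fact p.Prime]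
    [CharP A p] {m : Ideal A} [IsAdicComplete m A] {r : ℕ} {v : Fin r → A}
    (hm : m = Ideal.span (Set.range v)) (hk : ∀ a : A, ∃ x : k, a - algebraMap k A x ∈ m)
    {g : A⟦X⟧} {g₀ : k⟦X⟧} (hg0 : constantCoeff g = 0)
    (hg : Sm m g (PowerSeries.map (algebraMap k A) g₀)) (hT : HT p v g)
    (hp : ∀ i, ¬ p ∣ i → coeff i g₀ = 0) (hd : ∀ i < p ^ (r + 1), coeff i g₀ = 0)
    (hu : IsUnit (coeff (p ^ (r + 1)) g₀))
    (φ : A →ₐ[k] A) (hφ : ∀ a ∈ m, φ a ∈ m) {f : A⟦X⟧} (hf0 : constantCoeff f = 0)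
    (hf : Sm m f X) (hc : cm f g = cm (PowerSeries.map (φ : A →+* A) g) f) :
    φ = AlgHom.id k A ∧ f = X := by
  have hpp : p.Prime := Fact.out
  set b : A⟦X⟧ := PowerSeries.map (algebraMap k A) g₀ with hb
  have hpb : ∀ i, ¬ p ∣ i → coeff i b ∈ m := by
    intro i hi
    rw [hb, coeff_map, hp i hi, map_zero]
    exact zero_mem _
  have hdb : ∀ i < p ^ (r + 1), coeff i b ∈ m := by
    intro i hi
    rw [hb, coeff_map, hd i hi, map_zero]
    exact zero_mem _
  have hub : IsUnit (coeff (p ^ (r + 1)) b) := by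
    rw [hb, coeff_map]
    exact hu.map _
  have hφb : ∀ i, φ (coeff i b) = coeff i b := by
    intro i
    rw [hb, coeff_map]
    exact φ.commutes _
  have h1 : 1 ≤ p ^ (r + 1) := Nat.one_le_pow _ _ hpp.pos
  obtain ⟨u, g', hu0, huX, hg'0, hg'b, hn, huc⟩ := gnf_exists m h1 hg0 hg hpb hdb hub
  have hsum : ∀ {x y : A}, x - y ∈ m → y ∈ m → x ∈ m := fun {x y} h h' => by
    have h2 := add_mem h h'
    rwa [sub_add_cancel] at h2
  have hmu0 := cz_map (φ : A →+* A) hu0
  have hmg'0 := cz_map (φ : A →+* A) hg'0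
  have h3 : cm (PowerSeries.map (φ : A →+* A) u) (PowerSeries.map (φ : A →+* A) g) =
      cm (PowerSeries.map (φ : A →+* A) g') (PowerSeries.map (φ : A →+* A) u) := by
    rw [← map_comp _ hg0, ← map_comp _ hu0, huc]
  have h4 : cm (cm (PowerSeries.map (φ : A →+* A) u) f) g =
      cm (PowerSeries.map (φ : A →+* A) g') (cm (PowerSeries.map (φ : A →+* A) u) f) := by
    rw [comp_assoc _ hf0 hg0, hc, ← comp_assoc _ (cz_map _ hg0) hf0, h3, comp_assoc _ hmu0 hf0]
  have h2 : Sm m (PowerSeries.map (φ : A →+* A) u) X := by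
    have h := huX.map (φ : A →+* A) hφ
    rwa [map_X] at h
  have h5 : Sm m (cm (PowerSeries.map (φ : A →+* A) u) f) X := by
    have h := h2.comp hf0 constantCoeff_X hf
    rwa [comp_X] at h
  have hφg' : Sm m (PowerSeries.map (φ : A →+* A) g') b := by
    intro i
    have h := hφ _ (hg'b i)
    rw [map_sub, hφb i] at h
    rw [coeff_map]
    exact h
  have h6 := gnf_unique h1 hg0 hg'0 (g₂ := PowerSeries.map (φ : A →+* A) g')
    (fun i hi => hsum (hφg' i) (hpb i hi)) (fun i hi => hsum (hg'b i) (hdb i hi))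
    (isUnit_of_sub_mem hub (hg'b _))
    (fun i hi => by
      rw [coeff_map, hn i hi]
      exact hφb _)
    hu0 (cz_comp hmu0 hf0) (isUnit_one_of_sm huX) (huX.trans h5.symm) huc h4
  have hT' : HT p v g' := hT.conj hpp.pos hu0 (isUnit_one_of_sm huX) hg0 huc
  have hid : φ = AlgHom.id k A := by
    refine gen_abs (c := cf p r g') ?_ hk φ fun j => ?_
    · rw [hm, ← Ij_last v, ← Ij_last (cf p r g'), hT'.span_eq le_rfl]
    · have h7 := congrArg (coeff (p ^ ((j : ℕ) + 1))) h6.2
      rw [coeff_map] at h7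
      exact h7.symm
  refine ⟨hid, ?_⟩
  have h8 : PowerSeries.map (φ : A →+* A) u = u := by
    rw [hid]
    ext i
    rw [coeff_map]
    rfl
  obtain ⟨c, hc0, _, hcu⟩ := exists_inv hu0 (isUnit_one_of_sm huX)
  have h9 := h6.1
  rw [h8] at h9
  calc f = cm X f := (X_comp hf0).symm
    _ = cm (cm c u) f := by rw [hcu]
    _ = cm c (cm u f) := comp_assoc c hu0 hf0
    _ = X := by rw [← h9, hcu]

end Pool.Agent.H86.NF
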