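import Mathlib

/-!
# The normal form lemma (helper86)

`B` a commutative ring, `I` an ideal.  `Sm I f g`: the power series `f`, `g` are congruent modulo `I`
(coefficientwise).  `Nrm q g`: the coefficient of `X ^ (q * i)` in `g` is `1` for `i = 1` and `0` for `i ≥ 2`.
`cm u g` is the composition `u ∘ g = u(g(X))` (an abbreviation of `PowerSeries.subst g u`).
-/

open PowerSeries

namespace Pool.Agent.H86.NF

variable {B : Type*} [CommRing B]

/-- `f` and `g` are congruent modulo `I`, coefficientwise. -/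
def Sm (I : Ideal B) (f g : B⟦X⟧) : Prop := ∀ i, coeff i f - coeff i g ∈ I

/-- composition `u ∘ g` -/
noncomputable abbrev cm (u g : B⟦X⟧) : B⟦X⟧ := PowerSeries.subst g u

/-- normal series: the coefficient of `X ^ (q * i)` is `1` for `i = 1` and `0` for `i ≥ 2`. -/
def Nrm (q : ℕ) (g : B⟦X⟧) : Prop := ∀ i, 1 ≤ i → coeff (q * i) g = if i = 1 then 1 else 0

theorem sm_iff_map {I : Ideal B} {f g : B⟦X⟧} :
    Sm I f g ↔ PowerSeries.map (Ideal.Quotient.mk I) f = PowerSeries.map (Ideal.Quotient.mk I) g := by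
  rw [PowerSeries.ext_iff]
  refine forall_congr' fun i => ?_
  rw [coeff_map, coeff_map, Ideal.Quotient.eq]

theorem Sm.refl (I : Ideal B) (f : B⟦X⟧) : Sm I f f := sm_iff_map.mpr rfl

theorem Sm.symm {I : Ideal B} {f g : B⟦X⟧} (h : Sm I f g) : Sm I g f :=
  sm_iff_map.mpr (sm_iff_map.mp h).symm

theorem Sm.trans {I : Ideal B} {f g k : B⟦X⟧} (h : Sm I f g) (h' : Sm I g k) : Sm I f k :=
  sm_iff_map.mpr ((sm_iff_map.mp h).trans (sm_iff_map.mp h'))

theorem Sm.mono {I J : Ideal B} (hIJ : I ≤ J) {f g : B⟦X⟧} (h : Sm I f g) : Sm J f g :=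
  fun i => hIJ (h i)

theorem Sm.add {I : Ideal B} {f g f' g' : B⟦X⟧} (h : Sm I f g) (h' : Sm I f' g') :
    Sm I (f + f') (g + g') := by
  rw [sm_iff_map] at *
  rw [map_add, map_add, h, h']

theorem Sm.sub {I : Ideal B} {f g f' g' : B⟦X⟧} (h : Sm I f g) (h' : Sm I f' g') :
    Sm I (f - f') (g - g') := by
  rw [sm_iff_map] at *
  rw [map_sub, map_sub, h, h']

theorem Sm.pow {I : Ideal B} {f g : B⟦X⟧} (h : Sm I f g) (n : ℕ) : Sm I (f ^ n) (g ^ n) := by
  rw [sm_iff_map] at *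
  rw [map_pow, map_pow, h]

theorem hsub {f : B⟦X⟧} (h : constantCoeff f = 0) : HasSubst f := HasSubst.of_constantCoeff_zero' h

theorem cz_comp {f g : B⟦X⟧} (hf : constantCoeff f = 0) (hg : constantCoeff g = 0) :
    constantCoeff (cm f g) = 0 := constantCoeff_subst_eq_zero hg f hf

theorem map_comp {R S : Type*} [CommRing R] [CommRing S] (h : R →+* S) {f g : R⟦X⟧}
    (hg : constantCoeff g = 0) :
    PowerSeries.map h (cm f g) = cm (PowerSeries.map h f) (PowerSeries.map h g) :=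
  PowerSeries.map_subst (hsub hg) f

/-- composition respects congruences -/
theorem Sm.comp {I : Ideal B} {f g a b : B⟦X⟧} (h : Sm I f g) (ha : constantCoeff a = 0)
    (hb : constantCoeff b = 0) (h' : Sm I a b) : Sm I (cm f a) (cm g b) := by
  rw [sm_iff_map] at *
  rw [map_comp _ ha, map_comp _ hb, h, h']

/-- the product estimate -/
theorem comp_mul {K L : Ideal B} {r a b : B⟦X⟧} (hr : ∀ i, coeff i r ∈ K)
    (ha : constantCoeff a = 0) (hb : constantCoeff b = 0) (hab : Sm L a b) :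
    Sm (K * L) (cm r a) (cm r b) := by
  intro i
  rw [coeff_subst' (hsub ha), coeff_subst' (hsub hb),
    ← finsum_sub_distrib (coeff_subst_finite' (hsub ha) r i) (coeff_subst_finite' (hsub hb) r i)]
  refine finsum_induction (fun x => x ∈ K * L) (zero_mem _) (fun x y hx hy => add_mem hx hy) ?_
  intro d
  rw [smul_eq_mul, smul_eq_mul, ← mul_sub]
  exact Ideal.mul_mem_mul (hr d) (hab.pow d i)

theorem comp_add (a b : B⟦X⟧) {g : B⟦X⟧} (hg : constantCoeff g = 0) :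
    cm (a + b) g = cm a g + cm b g := subst_add (hsub hg) a b

theorem X_comp {g : B⟦X⟧} (hg : constantCoeff g = 0) : cm (X : B⟦X⟧) g = g := subst_X (hsub hg)

theorem comp_X (f : B⟦X⟧) : cm f (X : B⟦X⟧) = f := X_subst f

theorem comp_assoc (f : B⟦X⟧) {g k : B⟦X⟧} (hg : constantCoeff g = 0) (hk : constantCoeff k = 0) :
    cm (cm f g) k = cm f (cm g k) := subst_comp_subst_apply (hsub hg) (hsub hk) f

theorem coeff_comp_X_pow {q : ℕ} (hq : q ≠ 0) (f : B⟦X⟧) (n : ℕ) :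
    coeff n (cm f (X ^ q : B⟦X⟧)) = if q ∣ n then coeff (n / q) f else 0 :=
  coeff_subst_X_pow hq f n

theorem X_pow_comp {q : ℕ} {g : B⟦X⟧} (hg : constantCoeff g = 0) :
    cm (X ^ q : B⟦X⟧) g = g ^ q := by
  rw [cm, subst_pow (hsub hg), subst_X (hsub hg)]

/-- `g ∘ w ≡ g mod I ^ (j + 1)` if `w ≡ X mod I ^ j` and only coefficients of index divisible by `p` of `g`
are nonzero modulo `I` -/
theorem pert {p : ℕ} [Fact p.Prime] [CharP B p] {I : Ideal B} {j : ℕ} (hj : 1 ≤ j) {g w : B⟦X⟧}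
    (hp : ∀ i, ¬ p ∣ i → coeff i g ∈ I) (hw0 : constantCoeff w = 0) (hw : Sm (I ^ j) w X) :
    Sm (I ^ (j + 1)) (cm g w) g := by
  have hpp : p.Prime := Fact.out
  have hp0 : p ≠ 0 := hpp.ne_zero
  set h : B⟦X⟧ := PowerSeries.mk fun i => coeff (p * i) g with hh
  set gp : B⟦X⟧ := cm h (X ^ p : B⟦X⟧) with hgp
  have hXp : constantCoeff (X ^ p : B⟦X⟧) = 0 := by
    rw [map_pow, constantCoeff_X, zero_pow hp0]
  have hr : ∀ i, coeff i (g - gp) ∈ I := by
    intro i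
    rw [map_sub, hgp, coeff_comp_X_pow hp0]
    split_ifs with hd
    · obtain ⟨c, rfl⟩ := hd
      rw [Nat.mul_div_cancel_left _ hpp.pos, hh, coeff_mk, sub_self]
      exact zero_mem _
    · rw [sub_zero]
      exact hp i hd
  have h1 : Sm (I ^ (j + 1)) (cm (g - gp) w) (g - gp) := by
    have := comp_mul hr hw0 (constantCoeff_X) hw
    rw [comp_X, ← pow_succ'] at this
    exact this
  have h2 : Sm (I ^ (j + 1)) (w ^ p) (X ^ p) := by
    intro i
    have : CharP B⟦X⟧ p := charP_of_injective_ringHom (f := C (R := B)) C_injective p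
    rw [← map_sub, ← sub_pow_char (R := B⟦X⟧)]
    have h3 : ∀ n, ∀ i, coeff i ((w - X) ^ n) ∈ (I ^ j) ^ n := by
      intro n
      induction n with
      | zero =>
        intro i
        rw [pow_zero, pow_zero, Ideal.one_eq_top]
        trivial
      | succ n ih =>
        intro i
        rw [pow_succ (w - X) n, coeff_mul, pow_succ (I ^ j) n]
        refine Ideal.sum_mem _ fun x _ => Ideal.mul_mem_mul (ih _) ?_
        rw [map_sub]
        exact hw _
    have h4 : (I ^ j) ^ p ≤ I ^ (j + 1) := by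
      rw [← pow_mul]
      apply Ideal.pow_le_pow_right
      have := hpp.two_le
      nlinarith
    exact h4 (h3 p i)
  have h3 : Sm (I ^ (j + 1)) (cm gp w) gp := by
    have h4 : cm gp w = cm h (w ^ p) := by
      rw [hgp, comp_assoc _ hXp hw0, X_pow_comp hw0]
    rw [h4, hgp]
    refine (Sm.refl _ h).comp ?_ hXp h2
    rw [map_pow, hw0, zero_pow hp0]
  have h5 := h1.add h3
  rw [← comp_add _ _ hw0] at h5
  simpa using h5

/-- the inverse of a series congruent to `X` -/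
theorem exists_inv {u : B⟦X⟧} (hu0 : constantCoeff u = 0) (hu : IsUnit (coeff 1 u)) :
    ∃ v : B⟦X⟧, constantCoeff v = 0 ∧ cm u v = X ∧ cm v u = X := by
  refine ⟨u.substInvOfIsUnit hu, ?_, ?_, ?_⟩
  · exact constantCoeff_substInvOfIsUnit _ hu
  · exact subst_substInvOfIsUnit_right _ hu0 hu
  · exact subst_substInvOfIsUnit_left _ hu0 hu

theorem left_eq (w : B⟦X⟧) {g : B⟦X⟧} (hg : constantCoeff g = 0) :
    cm w g = g + cm (w - X) g := by
  have h := comp_add X (w - X) hg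
  rw [X_comp hg, add_sub_cancel] at h
  exact h

theorem sm_of_all {I : Ideal B} [IsHausdorff I B] {f g : B⟦X⟧} (h : ∀ j, Sm (I ^ j) f g) : f = g := by
  ext i
  rw [← sub_eq_zero]
  refine IsHausdorff.haus ‹IsHausdorff I B› _ fun j => ?_
  rw [SModEq.zero, smul_eq_mul, Ideal.mul_top]
  exact h j i

theorem isUnit_of_sub_mem {I : Ideal B} [IsAdicComplete I B] {a b : B} (hb : IsUnit b)
    (h : a - b ∈ I) : IsUnit a := by
  obtain ⟨b, rfl⟩ := hb
  have h1 : a - b ∈ (⊥ : Ideal B).jacobson := IsAdicComplete.le_jacobson_bot I h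
  have h2 := (Ideal.mem_jacobson_bot.mp h1) (↑b⁻¹)
  have h3 : (a - b) * ↑b⁻¹ + 1 = a * ↑b⁻¹ := by
    rw [sub_mul, Units.mul_inv]
    ring
  rw [h3] at h2
  exact (Units.isUnit_mul_units a b⁻¹).mp h2

theorem isUnit_one_of_sm {I : Ideal B} [IsAdicComplete I B] {u : B⟦X⟧} (h : Sm I u X) :
    IsUnit (coeff 1 u) := by
  have h1 := h 1
  rw [coeff_one_X] at h1
  exact isUnit_of_sub_mem isUnit_one h1

theorem nf_step {p a q : ℕ} [Fact p.Prime] [CharP B p] (ha : a ≠ 0) (hq : q = p ^ a)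
    {I : Ideal B} {j : ℕ} (hj : 1 ≤ j) {g₁ g₂ w : B⟦X⟧} (hc₁ : constantCoeff g₁ = 0)
    (h₁ : Sm I g₁ (X ^ q)) (h₂ : Sm I g₂ (X ^ q))
    (hw0 : constantCoeff w = 0) (hw : Sm (I ^ j) w X) (e : cm w g₁ = cm g₂ w) (i : ℕ) :
    coeff (q * i) g₁ + coeff i (w - X) - coeff (q * i) g₂ ∈ I ^ (j + 1) := by
  have hpp : p.Prime := Fact.out
  have hq0 : q ≠ 0 := by
    rw [hq]
    exact pow_ne_zero _ hpp.ne_zero
  have hp : ∀ i, ¬ p ∣ i → coeff i g₂ ∈ I := by
    intro i hi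
    have h := h₂ i
    rwa [coeff_X_pow, if_neg, sub_zero] at h
    rintro rfl
    exact hi (hq ▸ dvd_pow_self p ha)
  have k1 := pert hj hp hw0 hw
  rw [← e, left_eq w hc₁] at k1
  have hXq : constantCoeff (X ^ q : B⟦X⟧) = 0 := by
    rw [map_pow, constantCoeff_X, zero_pow hq0]
  have k2 : Sm (I ^ j * I) (cm (w - X) g₁) (cm (w - X) (X ^ q)) :=
    comp_mul (fun i => by rw [map_sub]; exact hw i) hc₁ hXq h₁
  rw [← pow_succ] at k2
  have k3 := ((Sm.refl (I ^ (j + 1)) g₁).add k2).symm.trans k1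
  have k4 := k3 (q * i)
  rw [map_add, coeff_comp_X_pow hq0, if_pos (Dvd.intro _ rfl),
    Nat.mul_div_cancel_left _ (Nat.pos_of_ne_zero hq0)] at k4
  exact k4

/-- uniqueness, in the form of a single conjugating series -/
theorem nf_unique_aux {p a q : ℕ} [Fact p.Prime] [CharP B p] (ha : a ≠ 0) (hq : q = p ^ a)
    {I : Ideal B} [IsHausdorff I B] {g₁ g₂ w : B⟦X⟧} (hc₁ : constantCoeff g₁ = 0)
    (h₁ : Sm I g₁ (X ^ q)) (h₂ : Sm I g₂ (X ^ q)) (n₁ : Nrm q g₁) (n₂ : Nrm q g₂)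
    (hw0 : constantCoeff w = 0) (hw : Sm I w X) (e : cm w g₁ = cm g₂ w) : w = X := by
  have key : ∀ j, Sm (I ^ (j + 1)) w X := by
    intro j
    induction j with
    | zero =>
      rw [zero_add, pow_one]
      exact hw
    | succ j ih =>
      intro i
      rcases Nat.eq_zero_or_pos i with rfl | hi
      · rw [coeff_zero_eq_constantCoeff_apply, coeff_zero_eq_constantCoeff_apply, hw0,
          constantCoeff_X, sub_zero]
        exact zero_mem _
      · have h := nf_step ha hq (Nat.le_add_left 1 j) hc₁ h₁ h₂ hw0 ih e i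
        rwa [n₁ i hi, n₂ i hi, add_sub_cancel_left, map_sub] at h
  refine sm_of_all (I := I) fun j => ?_
  exact (key j).mono (Ideal.pow_le_pow_right (Nat.le_succ j))

/-- **Uniqueness of the normal form.** -/
theorem nf_unique {p a q : ℕ} [Fact p.Prime] [CharP B p] (ha : a ≠ 0) (hq : q = p ^ a)
    {I : Ideal B} [IsAdicComplete I B] {g g₁ g₂ u₁ u₂ : B⟦X⟧} (hg0 : constantCoeff g = 0)
    (hc₁ : constantCoeff g₁ = 0) (h₁ : Sm I g₁ (X ^ q)) (h₂ : Sm I g₂ (X ^ q)) (n₁ : Nrm q g₁)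
    (n₂ : Nrm q g₂) (hu₁ : constantCoeff u₁ = 0) (hu₂ : constantCoeff u₂ = 0) (k₁ : Sm I u₁ X)
    (k₂ : Sm I u₂ X) (e₁ : cm u₁ g = cm g₁ u₁) (e₂ : cm u₂ g = cm g₂ u₂) : u₁ = u₂ ∧ g₁ = g₂ := by
  obtain ⟨v, hv0, huv, hvu⟩ := exists_inv hu₁ (isUnit_one_of_sm k₁)
  have hv : Sm I v X := by
    have h := (k₁.symm.comp hv0 hv0 (Sm.refl I v))
    rw [huv] at h
    simpa [cm, subst_X (hsub hv0)] using h
  have hw0 : constantCoeff (cm u₂ v) = 0 := cz_comp hu₂ hv0
  have hw : Sm I (cm u₂ v) X := by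
    have h := k₂.comp hv0 constantCoeff_X hv
    rwa [comp_X] at h
  have e : cm (cm u₂ v) g₁ = cm g₂ (cm u₂ v) := by
    have h1 : cm v g₁ = cm g v := by
      calc cm v g₁ = cm v (cm g₁ (cm u₁ v)) := by rw [huv, comp_X]
        _ = cm v (cm (cm g₁ u₁) v) := by rw [comp_assoc g₁ hu₁ hv0]
        _ = cm v (cm (cm u₁ g) v) := by rw [e₁]
        _ = cm v (cm u₁ (cm g v)) := by rw [comp_assoc u₁ hg0 hv0]
        _ = cm (cm v u₁) (cm g v) := by rw [comp_assoc v hu₁ (cz_comp hg0 hv0)]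
        _ = cm g v := by rw [hvu, X_comp (cz_comp hg0 hv0)]
    rw [comp_assoc u₂ hv0 hc₁, h1, ← comp_assoc u₂ hg0 hv0, e₂, comp_assoc g₂ hu₂ hv0]
  have hX := nf_unique_aux (I := I) ha hq hc₁ h₁ h₂ n₁ n₂ hw0 hw e
  have hu : u₂ = u₁ := by
    calc u₂ = cm u₂ (cm v u₁) := by rw [hvu, comp_X]
      _ = cm (cm u₂ v) u₁ := by rw [comp_assoc u₂ hv0 hu₁]
      _ = u₁ := by rw [hX, X_comp hu₁]
  refine ⟨hu.symm, ?_⟩
  rw [hX, X_comp hc₁, comp_X] at e
  exact e

/-- one step of the construction -/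
theorem nf_exists_step {p a q : ℕ} [Fact p.Prime] [CharP B p] (ha : a ≠ 0) (hq : q = p ^ a)
    {I : Ideal B} [IsAdicComplete I B] {j : ℕ} {g : B⟦X⟧} (hc : constantCoeff g = 0)
    (hg : Sm I g (X ^ q)) (hn : ∀ i, 1 ≤ i → coeff (q * i) g - (if i = 1 then 1 else 0) ∈ I ^ (j + 1)) :
    ∃ w g' : B⟦X⟧, constantCoeff w = 0 ∧ Sm (I ^ (j + 1)) w X ∧ constantCoeff g' = 0 ∧
      Sm (I ^ (j + 1)) g' g ∧ cm w g = cm g' w ∧
      (∀ i, 1 ≤ i → coeff (q * i) g' - (if i = 1 then 1 else 0) ∈ I ^ (j + 1 + 1)) := by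
  have hjI : I ^ (j + 1) ≤ I := Ideal.pow_le_self (Nat.succ_ne_zero j)
  set e : B⟦X⟧ := PowerSeries.mk fun i =>
    if i = 0 then 0 else (if i = 1 then 1 else 0) - coeff (q * i) g with he
  have hei : ∀ i, coeff i e ∈ I ^ (j + 1) := by
    intro i
    rw [he, coeff_mk]
    split_ifs with h0 h1
    · exact zero_mem _
    · have h := hn i (Nat.pos_of_ne_zero h0)
      rw [if_pos h1] at h
      rw [← neg_sub]
      exact neg_mem h
    · have h := hn i (Nat.pos_of_ne_zero h0)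
      rw [if_neg h1] at h
      rw [← neg_sub]
      exact neg_mem h
  set w : B⟦X⟧ := X + e with hw
  have hw0 : constantCoeff w = 0 := by
    rw [hw, map_add, constantCoeff_X, zero_add, ← coeff_zero_eq_constantCoeff_apply, he, coeff_mk,
      if_pos rfl]
  have hwX : Sm (I ^ (j + 1)) w X := by
    intro i
    rw [hw, map_add, add_sub_cancel_left]
    exact hei i
  obtain ⟨v, hv0, hwv, hvw⟩ := exists_inv hw0 (isUnit_one_of_sm (hwX.mono hjI))
  have hvX : Sm (I ^ (j + 1)) v X := by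
    have h := (hwX.symm.comp hv0 hv0 (Sm.refl _ v))
    rwa [hwv, X_comp hv0] at h
  set g' : B⟦X⟧ := cm w (cm g v) with hg'
  have hc' : constantCoeff g' = 0 := cz_comp hw0 (cz_comp hc hv0)
  have hgg : Sm (I ^ (j + 1)) g' g := by
    have h1 : Sm (I ^ (j + 1)) (cm g v) g := by
      have h := (Sm.refl (I ^ (j + 1)) g).comp hv0 constantCoeff_X hvX
      rwa [comp_X] at h
    have h2 := hwX.comp (cz_comp hc hv0) hc h1
    rwa [X_comp hc] at h2
  have hcomm : cm w g = cm g' w := by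
    rw [hg', comp_assoc w (cz_comp hc hv0) hw0, comp_assoc g hv0 hw0, hvw, comp_X]
  refine ⟨w, g', hw0, hwX, hc', hgg, hcomm, fun i hi => ?_⟩
  have h := nf_step ha hq (Nat.le_add_left 1 j) hc hg ((hgg.mono hjI).trans hg) hw0 hwX hcomm i
  rw [hw, add_sub_cancel_left, he, coeff_mk, if_neg (Nat.pos_iff_ne_zero.mp hi)] at h
  have h2 := neg_mem h
  convert h2 using 1
  ring

/-- the limit of a Cauchy sequence of power series -/
theorem exists_lim {I : Ideal B} [IsAdicComplete I B] (f : ℕ → B⟦X⟧)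
    (hf : ∀ j, Sm (I ^ j) (f j) (f (j + 1))) : ∃ l : B⟦X⟧, ∀ j, Sm (I ^ j) (f j) l := by
  have hmono : ∀ m n, m ≤ n → Sm (I ^ m) (f m) (f n) := by
    intro m n hmn
    induction n, hmn using Nat.le_induction with
    | base => exact Sm.refl _ _
    | succ n hmn ih => exact ih.trans ((hf n).mono (Ideal.pow_le_pow_right hmn))
  have h : ∀ i, ∃ L : B, ∀ n, coeff i (f n) ≡ L [SMOD (I ^ n • ⊤ : Submodule B B)] := by
    intro i
    refine IsPrecomplete.prec ‹IsAdicComplete I B›.toIsPrecomplete ?_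
    intro m n hmn
    rw [SModEq.sub_mem, smul_eq_mul, Ideal.mul_top]
    exact hmono m n hmn i
  choose L hL using h
  refine ⟨PowerSeries.mk L, fun j i => ?_⟩
  have h1 := hL i j
  rw [SModEq.sub_mem, smul_eq_mul, Ideal.mul_top] at h1
  rwa [coeff_mk]

/-- **Existence of the normal form.** -/
theorem nf_exists {p a q : ℕ} [Fact p.Prime] [CharP B p] (ha : a ≠ 0) (hq : q = p ^ a)
    (I : Ideal B) [IsAdicComplete I B] {g : B⟦X⟧} (hc : constantCoeff g = 0)
    (hg : Sm I g (X ^ q)) :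
    ∃ u g' : B⟦X⟧, constantCoeff u = 0 ∧ Sm I u X ∧ constantCoeff g' = 0 ∧ Sm I g' (X ^ q) ∧
      Nrm q g' ∧ cm u g = cm g' u := by
  have hpp : p.Prime := Fact.out
  have hq0 : q ≠ 0 := by
    rw [hq]
    exact pow_ne_zero _ hpp.ne_zero
  let St (j : ℕ) := {x : B⟦X⟧ × B⟦X⟧ // constantCoeff x.1 = 0 ∧ Sm I x.1 X ∧ constantCoeff x.2 = 0 ∧
    Sm I x.2 (X ^ q) ∧ (∀ i, 1 ≤ i → coeff (q * i) x.2 - (if i = 1 then 1 else 0) ∈ I ^ (j + 1)) ∧
    cm x.1 g = cm x.2 x.1}
  have step : ∀ j (x : St j), ∃ y : St (j + 1), Sm (I ^ (j + 1)) x.1.1 y.1.1 ∧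
      Sm (I ^ (j + 1)) x.1.2 y.1.2 := by
    rintro j ⟨⟨u, g₁⟩, hu0, huX, hg0, hgX, hn, hcm⟩
    obtain ⟨w, g', hw0, hwX, hg'0, hgg, hcomm, hn'⟩ := nf_exists_step ha hq hg0 hgX hn
    have hjI : I ^ (j + 1) ≤ I := Ideal.pow_le_self (Nat.succ_ne_zero j)
    have h1 : Sm (I ^ (j + 1)) (cm w u) u := by
      have h := hwX.comp hu0 hu0 (Sm.refl _ u)
      rwa [X_comp hu0] at h
    refine ⟨⟨(cm w u, g'), cz_comp hw0 hu0, (h1.mono hjI).trans huX, hg'0,
      (hgg.mono hjI).trans hgX, hn', ?_⟩, h1.symm, hgg.symm⟩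
    show cm (cm w u) g = cm g' (cm w u)
    rw [comp_assoc w hu0 hc, hcm, ← comp_assoc w hg0 hu0, hcomm, comp_assoc g' hw0 hu0]
  choose nx hnx using step
  let x₀ : St 0 := ⟨(X, g), constantCoeff_X, Sm.refl _ _, hc, hg, by
    intro i hi
    rw [zero_add, pow_one]
    have h := hg (q * i)
    rw [coeff_X_pow] at h
    have h1 : (q * i = q) ↔ i = 1 := by
      constructor
      · intro h
        exact Nat.eq_of_mul_eq_mul_left (Nat.pos_of_ne_zero hq0) (by rw [h, mul_one])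
      · rintro rfl
        rw [mul_one]
    simp only [h1] at h
    exact h, by rw [X_comp hc, comp_X]⟩
  let sq : ∀ j, St j := fun j => Nat.rec x₀ (fun j x => nx j x) j
  have hs1 : ∀ j, Sm (I ^ (j + 1)) (sq j).1.1 (sq (j + 1)).1.1 := fun j => (hnx j (sq j)).1
  have hs2 : ∀ j, Sm (I ^ (j + 1)) (sq j).1.2 (sq (j + 1)).1.2 := fun j => (hnx j (sq j)).2
  have hle : ∀ j, I ^ (j + 1) ≤ I ^ j := fun j => Ideal.pow_le_pow_right (Nat.le_succ j)
  obtain ⟨u, hu⟩ := exists_lim (fun j => (sq j).1.1) (fun j => (hs1 j).mono (hle j))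
  obtain ⟨g', hg'⟩ := exists_lim (fun j => (sq j).1.2) (fun j => (hs2 j).mono (hle j))
  have hz : ∀ {b : B}, (∀ j, b ∈ I ^ j) → b = 0 := by
    intro b hb
    refine IsHausdorff.haus (‹IsAdicComplete I B›.toIsHausdorff) _ fun j => ?_
    rw [SModEq.zero, smul_eq_mul, Ideal.mul_top]
    exact hb j
  have hu0 : constantCoeff u = 0 := by
    apply hz
    intro j
    have h := hu j 0
    rw [coeff_zero_eq_constantCoeff_apply, coeff_zero_eq_constantCoeff_apply, (sq j).2.1,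
      zero_sub] at h
    exact neg_mem_iff.mp h
  have hg'0 : constantCoeff g' = 0 := by
    apply hz
    intro j
    have h := hg' j 0
    rw [coeff_zero_eq_constantCoeff_apply, coeff_zero_eq_constantCoeff_apply, (sq j).2.2.2.1,
      zero_sub] at h
    exact neg_mem_iff.mp h
  refine ⟨u, g', hu0, ?_, hg'0, ?_, ?_, ?_⟩
  · have h := hu 1
    rw [pow_one] at h
    exact h.symm.trans (sq 1).2.2.1
  · have h := hg' 1
    rw [pow_one] at h
    exact h.symm.trans (sq 1).2.2.2.2.1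
  · intro i hi
    rw [← sub_eq_zero]
    apply hz
    intro j
    have h1 := hg' j (q * i)
    have h2 := hle j ((sq j).2.2.2.2.2.1 i hi)
    have h3 := sub_mem h2 h1
    rwa [sub_sub_sub_cancel_left] at h3
  · refine sm_of_all (I := I) fun j => ?_
    have h1 := (hu j).symm.comp hc hc (Sm.refl _ g)
    have h2 := (hg' j).comp (sq j).2.1 hu0 (hu j)
    rw [← (sq j).2.2.2.2.2.2] at h2
    exact h1.trans h2

end Pool.Agent.H86.NF
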