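import Pool.Agent.H86.NF.Gen

/-!
# The normal form relative to an arbitrary reference series (helper86)

`g₀`: a series over `B` whose coefficients of index prime to `p` and of index `< d` are in `I` and whose coefficient
of index `d ≥ 1` is a unit.  `NrmR d g₀ g`: the coefficients of index `d * i`, `i ≥ 1`, of `g` and `g₀` agree.
-/

open PowerSeries

namespace Pool.Agent.H86.NF

variable {B : Type*} [CommRing B]

/-- normal relative to `g₀` -/
def NrmR (d : ℕ) (g₀ g : B⟦X⟧) : Prop := ∀ i, 1 ≤ i → coeff (d * i) g = coeff (d * i) g₀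

/-- coefficient `d * i` of `e ∘ g` modulo `J` -/
theorem coeff_cm_mod {I J K : Ideal B} (hKJ : K * I ≤ J) {d : ℕ} {e g : B⟦X⟧} (hd1 : 1 ≤ d)
    (hg0 : constantCoeff g = 0) (hd : ∀ i < d, coeff i g ∈ I) (he : ∀ i, coeff i e ∈ K) (i : ℕ) :
    coeff (d * i) (cm e g) - ∑ l ∈ Finset.range (i + 1), coeff l e * coeff (d * i) (g ^ l) ∈ J := by
  rw [cm, coeff_subst' (hsub hg0)]
  have hfin := coeff_subst_finite' (hsub hg0) e (d * i)
  have hs : (∑ᶠ l, coeff l e • coeff (d * i) (g ^ l)) =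
      ∑ l ∈ (hfin.toFinset ∪ Finset.range (i + 1)), coeff l e • coeff (d * i) (g ^ l) := by
    apply finsum_eq_sum_of_support_subset
    intro x hx
    rw [Finset.coe_union]
    left
    simpa using hx
  rw [hs, ← Finset.sum_sdiff (Finset.subset_union_right (s₁ := hfin.toFinset)
    (s₂ := Finset.range (i + 1)))]
  simp only [smul_eq_mul]
  rw [add_sub_cancel_right]
  refine Ideal.sum_mem _ fun l hl => ?_
  rw [Finset.mem_sdiff, Finset.mem_range] at hl
  have h3 : i < l := by omega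
  apply hKJ
  refine Ideal.mul_mem_mul (he l) ((coeff_pow_mem hd l).1 _ ?_)
  exact (Nat.mul_lt_mul_left (by omega)).mpr h3

theorem left_cancel' {I J K : Ideal B} (hKJ : K * I ≤ J) {d : ℕ} {e g : B⟦X⟧} (hd1 : 1 ≤ d)
    (hg0 : constantCoeff g = 0) (hd : ∀ i < d, coeff i g ∈ I) (hu : IsUnit (coeff d g))
    (he0 : constantCoeff e = 0) (he : ∀ i, coeff i e ∈ K)
    (h : ∀ i, 1 ≤ i → coeff (d * i) (cm e g) ∈ J) : ∀ i, coeff i e ∈ J := by
  intro i
  induction i using Nat.strong_induction_on with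
  | _ i ih =>
    rcases Nat.eq_zero_or_pos i with rfl | hi
    · rw [coeff_zero_eq_constantCoeff_apply, he0]
      exact zero_mem _
    have h1 := coeff_cm_mod hKJ hd1 hg0 hd he i
    rw [Finset.sum_range_succ] at h1
    have h2 : ∑ l ∈ Finset.range i, coeff l e * coeff (d * i) (g ^ l) ∈ J :=
      Ideal.sum_mem _ fun l hl => Ideal.mul_mem_right _ _ (ih l (Finset.mem_range.mp hl))
    have h3 : coeff i e * coeff (d * i) (g ^ i) ∈ J := by
      have h4 := sub_mem (sub_mem (h i hi) h1) h2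
      convert h4 using 1
      ring
    have h4 : coeff i e * (coeff (d * i) (g ^ i) - (coeff d g) ^ i) ∈ J :=
      hKJ (Ideal.mul_mem_mul (he i) (coeff_pow_mem hd i).2)
    have h5 : coeff i e * (coeff d g) ^ i ∈ J := by
      have h6 := sub_mem h3 h4
      rwa [← mul_sub, sub_sub_cancel] at h6
    exact (Ideal.unit_mul_mem_iff_mem J (hu.pow i)).mp (by rwa [mul_comm] at h5)

/-- solving the triangular system -/
theorem exists_tri {I J K : Ideal B} (hKJ : K * I ≤ J) {d : ℕ} {g : B⟦X⟧} (hd1 : 1 ≤ d)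
    (hg0 : constantCoeff g = 0) (hd : ∀ i < d, coeff i g ∈ I) (hu : IsUnit (coeff d g))
    (b : ℕ → B) (hb : ∀ i, b i ∈ K) :
    ∃ e : B⟦X⟧, constantCoeff e = 0 ∧ (∀ i, coeff i e ∈ K) ∧
      ∀ i, 1 ≤ i → coeff (d * i) (cm e g) - b i ∈ J := by
  obtain ⟨a, ha⟩ := hu
  -- the coefficients, by strong recursion
  let F : (i : ℕ) → (∀ l, l < i → B) → B := fun i prev =>
    if i = 0 then 0 else
      (b i - ∑ l : Fin i, prev l l.2 * coeff (d * i) (g ^ (l : ℕ))) * ↑(a⁻¹ ^ i)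
  let c : ℕ → B := fun i => Nat.strongRec (motive := fun _ => B) F i
  have hc : ∀ i, c i = if i = 0 then 0 else
      (b i - ∑ l ∈ Finset.range i, c l * coeff (d * i) (g ^ l)) * ↑(a⁻¹ ^ i) := by
    intro i
    have h1 : c i = F i (fun l _ => c l) := by
      show Nat.strongRec (motive := fun _ => B) F i = _
      rw [Nat.strongRec]
    rw [h1]
    show (if i = 0 then 0 else
      (b i - ∑ l : Fin i, c l * coeff (d * i) (g ^ (l : ℕ))) * ↑(a⁻¹ ^ i)) = _
    rw [Finset.sum_range]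
  have hcK : ∀ i, c i ∈ K := by
    intro i
    induction i using Nat.strong_induction_on with
    | _ i ih =>
      rw [hc i]
      split_ifs with h0
      · exact zero_mem _
      · refine Ideal.mul_mem_right _ _ (sub_mem (hb i) ?_)
        exact Ideal.sum_mem _ fun l hl => Ideal.mul_mem_right _ _ (ih l (Finset.mem_range.mp hl))
  refine ⟨PowerSeries.mk c, ?_, fun i => by rw [coeff_mk]; exact hcK i, fun i hi => ?_⟩
  · rw [← coeff_zero_eq_constantCoeff_apply, coeff_mk, hc 0, if_pos rfl]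
  · have hKe : ∀ i, coeff i (PowerSeries.mk c) ∈ K := fun i => by rw [coeff_mk]; exact hcK i
    have h1 := coeff_cm_mod hKJ hd1 hg0 hd hKe i
    rw [Finset.sum_range_succ] at h1
    simp only [coeff_mk] at h1
    have h2 : c i * (coeff (d * i) (g ^ i) - (coeff d g) ^ i) ∈ J :=
      hKJ (Ideal.mul_mem_mul (hcK i) (coeff_pow_mem hd i).2)
    have h3 : c i * (coeff d g) ^ i =
        b i - ∑ l ∈ Finset.range i, c l * coeff (d * i) (g ^ l) := by
      conv_lhs => rw [hc i, if_neg (by omega), ← ha]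
      rw [mul_assoc, ← Units.val_pow_eq_pow_val, ← Units.val_mul, ← mul_pow, inv_mul_cancel,
        one_pow, Units.val_one, mul_one]
    have h4 := add_mem h1 h2
    convert h4 using 1
    linear_combination h3

theorem gnf_step {p : ℕ} [Fact p.Prime] [CharP B p] {I : Ideal B} {j : ℕ} (hj : 1 ≤ j)
    {g₁ g₂ w : B⟦X⟧} (hc₁ : constantCoeff g₁ = 0) (hp₂ : ∀ i, ¬ p ∣ i → coeff i g₂ ∈ I)
    (hw0 : constantCoeff w = 0) (hw : Sm (I ^ j) w X) (e : cm w g₁ = cm g₂ w) :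
    Sm (I ^ (j + 1)) (g₁ + cm (w - X) g₁) g₂ := by
  have k1 := pert hj hp₂ hw0 hw
  rwa [← e, left_eq w hc₁] at k1

/-- uniqueness, single conjugating series -/
theorem gnf_unique_aux {p : ℕ} [Fact p.Prime] [CharP B p] {I : Ideal B} [IsHausdorff I B] {d : ℕ}
    (hd1 : 1 ≤ d) {g₁ g₂ w : B⟦X⟧} (hc₁ : constantCoeff g₁ = 0)
    (hp₂ : ∀ i, ¬ p ∣ i → coeff i g₂ ∈ I) (hd : ∀ i < d, coeff i g₁ ∈ I)
    (hu : IsUnit (coeff d g₁)) (hn : NrmR d g₁ g₂)
    (hw0 : constantCoeff w = 0) (hw : Sm I w X) (e : cm w g₁ = cm g₂ w) : w = X := by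
  have key : ∀ j, Sm (I ^ (j + 1)) w X := by
    intro j
    induction j with
    | zero =>
      rw [zero_add, pow_one]
      exact hw
    | succ j ih =>
      have k1 := gnf_step (Nat.le_add_left 1 j) hc₁ hp₂ hw0 ih e
      have k2 : ∀ i, 1 ≤ i → coeff (d * i) (cm (w - X) g₁) ∈ I ^ (j + 1 + 1) := by
        intro i hi
        have h := k1 (d * i)
        rwa [map_add, hn i hi, add_sub_cancel_left] at h
      have k3 := left_cancel' (K := I ^ (j + 1)) (I := I) (J := I ^ (j + 1 + 1))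
        (by rw [← pow_succ]) hd1 hc₁ hd hu (by rw [map_sub, hw0, constantCoeff_X, sub_zero])
        (fun i => by rw [map_sub]; exact ih i) k2
      intro i
      have := k3 i
      rwa [map_sub] at this
  refine sm_of_all (I := I) fun j => ?_
  exact (key j).mono (Ideal.pow_le_pow_right (Nat.le_succ j))

/-- **Uniqueness of the normal form** (general reference). -/
theorem gnf_unique {p : ℕ} [Fact p.Prime] [CharP B p] {I : Ideal B} [IsAdicComplete I B] {d : ℕ}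
    (hd1 : 1 ≤ d) {g g₁ g₂ u₁ u₂ : B⟦X⟧} (hg0 : constantCoeff g = 0)
    (hc₁ : constantCoeff g₁ = 0) (hp₂ : ∀ i, ¬ p ∣ i → coeff i g₂ ∈ I)
    (hd : ∀ i < d, coeff i g₁ ∈ I) (hu : IsUnit (coeff d g₁)) (hn : NrmR d g₁ g₂)
    (hu₁ : constantCoeff u₁ = 0) (hu₂ : constantCoeff u₂ = 0) (hunit : IsUnit (coeff 1 u₁))
    (h12 : Sm I u₁ u₂) (e₁ : cm u₁ g = cm g₁ u₁) (e₂ : cm u₂ g = cm g₂ u₂) :
    u₁ = u₂ ∧ g₁ = g₂ := by
  obtain ⟨v, hv0, huv, hvu⟩ := exists_inv hu₁ hunit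
  have hw0 : constantCoeff (cm u₂ v) = 0 := cz_comp hu₂ hv0
  have hw : Sm I (cm u₂ v) X := by
    have h := h12.symm.comp hv0 hv0 (Sm.refl I v)
    rwa [huv] at h
  have e := conj_aux hg0 hc₁ hu₁ hu₂ hv0 huv hvu e₁ e₂
  have hX := gnf_unique_aux (I := I) hd1 hc₁ hp₂ hd hu hn hw0 hw e
  have hu' : u₂ = u₁ := by
    calc u₂ = cm u₂ (cm v u₁) := by rw [hvu, comp_X]
      _ = cm (cm u₂ v) u₁ := by rw [comp_assoc u₂ hv0 hu₁]
      _ = u₁ := by rw [hX, X_comp hu₁]
  refine ⟨hu'.symm, ?_⟩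
  rw [hX, X_comp hc₁, comp_X] at e
  exact e

/-- one step of the construction -/
theorem gnf_exists_step {p : ℕ} [Fact p.Prime] [CharP B p] {I : Ideal B} [IsAdicComplete I B]
    {d : ℕ} (hd1 : 1 ≤ d) {j : ℕ} {g₀ g : B⟦X⟧} (hc : constantCoeff g = 0) (hg : Sm I g g₀)
    (hp : ∀ i, ¬ p ∣ i → coeff i g₀ ∈ I) (hd : ∀ i < d, coeff i g₀ ∈ I)
    (hu : IsUnit (coeff d g₀)) (hn : ∀ i, 1 ≤ i → coeff (d * i) g - coeff (d * i) g₀ ∈ I ^ (j + 1)) :
    ∃ w g' : B⟦X⟧, constantCoeff w = 0 ∧ Sm (I ^ (j + 1)) w X ∧ constantCoeff g' = 0 ∧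
      Sm (I ^ (j + 1)) g' g ∧ cm w g = cm g' w ∧
      (∀ i, 1 ≤ i → coeff (d * i) g' - coeff (d * i) g₀ ∈ I ^ (j + 1 + 1)) := by
  have hjI : I ^ (j + 1) ≤ I := Ideal.pow_le_self (Nat.succ_ne_zero j)
  have hdg : ∀ i < d, coeff i g ∈ I := by
    intro i hi
    have h := add_mem (hg i) (hd i hi)
    rwa [sub_add_cancel] at h
  have hug : IsUnit (coeff d g) := isUnit_of_sub_mem hu (hg d)
  obtain ⟨e, he0, heK, heJ⟩ := exists_tri (K := I ^ (j + 1)) (I := I) (J := I ^ (j + 1 + 1))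
    (by rw [← pow_succ]) hd1 hc hdg hug
    (fun i => if i = 0 then 0 else coeff (d * i) g₀ - coeff (d * i) g) (by
      intro i
      split_ifs with h0
      · exact zero_mem _
      · have h := hn i (Nat.pos_of_ne_zero h0)
        rw [← neg_sub]
        exact neg_mem h)
  set w : B⟦X⟧ := X + e with hw
  have hw0 : constantCoeff w = 0 := by
    rw [hw, map_add, constantCoeff_X, zero_add, he0]
  have hwX : Sm (I ^ (j + 1)) w X := by
    intro i
    rw [hw, map_add, add_sub_cancel_left]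
    exact heK i
  obtain ⟨v, hv0, hwv, hvw⟩ := exists_inv hw0 (isUnit_one_of_sm (hwX.mono hjI))
  have hvX : Sm (I ^ (j + 1)) v X := by
    have h := (hwX.symm.comp hv0 hv0 (Sm.refl _ v))
    rwa [hwv, X_comp hv0] at h
  set g' : B⟦X⟧ := cm w (cm g v) with hg'
  have hc' : constantCoeff g' = 0 := cz_comp hw0 (cz_comp hc hv0)
  have hgg : Sm (I ^ (j + 1)) g' g := by
    have h1 : Sm (I ^ (j + 1)) (cm g v) g := by
      have h := (Sm.refl (I ^ (j + 1)) g).comp hv0 constantCoeff_X hvX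
      rwa [comp_X] at h
    have h2 := hwX.comp (cz_comp hc hv0) hc h1
    rwa [X_comp hc] at h2
  have hcomm : cm w g = cm g' w := by
    rw [hg', comp_assoc w (cz_comp hc hv0) hw0, comp_assoc g hv0 hw0, hvw, comp_X]
  refine ⟨w, g', hw0, hwX, hc', hgg, hcomm, fun i hi => ?_⟩
  have hp' : ∀ i, ¬ p ∣ i → coeff i g' ∈ I := by
    intro i hi
    have h := add_mem ((hgg.mono hjI).trans hg i) (hp i hi)
    rwa [sub_add_cancel] at h
  have h := gnf_step (Nat.le_add_left 1 j) hc hp' hw0 hwX hcomm (d * i)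
  have h2 := heJ i hi
  rw [hw, add_sub_cancel_left, map_add] at h
  simp only [if_neg (Nat.pos_iff_ne_zero.mp hi)] at h2
  have h3 := sub_mem h2 h
  convert h3 using 1
  ring

/-- **Existence of the normal form** (general reference). -/
theorem gnf_exists {p : ℕ} [Fact p.Prime] [CharP B p] (I : Ideal B) [IsAdicComplete I B]
    {d : ℕ} (hd1 : 1 ≤ d) {g₀ g : B⟦X⟧} (hc : constantCoeff g = 0) (hg : Sm I g g₀)
    (hp : ∀ i, ¬ p ∣ i → coeff i g₀ ∈ I) (hd : ∀ i < d, coeff i g₀ ∈ I)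
    (hu : IsUnit (coeff d g₀)) :
    ∃ u g' : B⟦X⟧, constantCoeff u = 0 ∧ Sm I u X ∧ constantCoeff g' = 0 ∧ Sm I g' g₀ ∧
      NrmR d g₀ g' ∧ cm u g = cm g' u := by
  let St (j : ℕ) := {x : B⟦X⟧ × B⟦X⟧ // constantCoeff x.1 = 0 ∧ Sm I x.1 X ∧ constantCoeff x.2 = 0 ∧
    Sm I x.2 g₀ ∧ (∀ i, 1 ≤ i → coeff (d * i) x.2 - coeff (d * i) g₀ ∈ I ^ (j + 1)) ∧
    cm x.1 g = cm x.2 x.1}
  have step : ∀ j (x : St j), ∃ y : St (j + 1), Sm (I ^ (j + 1)) x.1.1 y.1.1 ∧
      Sm (I ^ (j + 1)) x.1.2 y.1.2 := by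
    rintro j ⟨⟨u, g₁⟩, hu0, huX, hg0, hgX, hn, hcm⟩
    obtain ⟨w, g', hw0, hwX, hg'0, hgg, hcomm, hn'⟩ := gnf_exists_step hd1 hg0 hgX hp hd hu hn
    have hjI : I ^ (j + 1) ≤ I := Ideal.pow_le_self (Nat.succ_ne_zero j)
    have h1 : Sm (I ^ (j + 1)) (cm w u) u := by
      have h := hwX.comp hu0 hu0 (Sm.refl _ u)
      rwa [X_comp hu0] at h
    refine ⟨⟨(cm w u, g'), cz_comp hw0 hu0, (h1.mono hjI).trans huX, hg'0,
      (hgg.mono hjI).trans hgX, hn', ?_⟩, h1.symm, hgg.symm⟩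
    show cm (cm w u) g = cm g' (cm w u)
    rw [comp_assoc w hu0 hc, hcm, ← comp_assoc w hg0 hu0, hcomm, comp_assoc g' hw0 hu0]
  choose nx hnx using step
  let x₀ : St 0 := ⟨(X, g), constantCoeff_X, Sm.refl _ _, hc, hg, by
    intro i hi
    rw [zero_add, pow_one]
    exact hg (d * i), by rw [X_comp hc, comp_X]⟩
  let sq : ∀ j, St j := fun j => Nat.rec x₀ (fun j x => nx j x) j
  have hs1 : ∀ j, Sm (I ^ (j + 1)) (sq j).1.1 (sq (j + 1)).1.1 := fun j => (hnx j (sq j)).1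
  have hs2 : ∀ j, Sm (I ^ (j + 1)) (sq j).1.2 (sq (j + 1)).1.2 := fun j => (hnx j (sq j)).2
  have hle : ∀ j, I ^ (j + 1) ≤ I ^ j := fun j => Ideal.pow_le_pow_right (Nat.le_succ j)
  obtain ⟨u, hu'⟩ := exists_lim (fun j => (sq j).1.1) (fun j => (hs1 j).mono (hle j))
  obtain ⟨g', hg'⟩ := exists_lim (fun j => (sq j).1.2) (fun j => (hs2 j).mono (hle j))
  have hz : ∀ {b : B}, (∀ j, b ∈ I ^ j) → b = 0 := by
    intro b hb
    refine IsHausdorff.haus (‹IsAdicComplete I B›.toIsHausdorff) _ fun j => ?_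
    rw [SModEq.zero, smul_eq_mul, Ideal.mul_top]
    exact hb j
  have hu0 : constantCoeff u = 0 := by
    apply hz
    intro j
    have h := hu' j 0
    rw [coeff_zero_eq_constantCoeff_apply, coeff_zero_eq_constantCoeff_apply, (sq j).2.1,
      zero_sub] at h
    exact neg_mem_iff.mp h
  have hg'0 : constantCoeff g' = 0 := by
    apply hz
    intro j
    have h := hg' j 0
    rw [coeff_zero_eq_constantCoeff_apply, coeff_zero_eq_constantCoeff_apply, (sq j).2.2.2.1,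
      zero_sub] at h
    exact neg_mem_iff.mp h
  refine ⟨u, g', hu0, ?_, hg'0, ?_, ?_, ?_⟩
  · have h := hu' 1
    rw [pow_one] at h
    exact h.symm.trans (sq 1).2.2.1
  · have h := hg' 1
    rw [pow_one] at h
    exact h.symm.trans (sq 1).2.2.2.2.1
  · intro i hi
    rw [← sub_eq_zero]
    apply hz
    intro j
    have h1 := hg' j (d * i)
    have h2 := hle j ((sq j).2.2.2.2.2.1 i hi)
    have h3 := sub_mem h2 h1
    rwa [sub_sub_sub_cancel_left] at h3
  · refine sm_of_all (I := I) fun j => ?_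
    have h1 := (hu' j).symm.comp hc hc (Sm.refl _ g)
    have h2 := (hg' j).comp (sq j).2.1 hu0 (hu' j)
    rw [← (sq j).2.2.2.2.2.2] at h2
    exact h1.trans h2

end Pool.Agent.H86.NF
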