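import Pool.Agent.H86.NF.Nf

/-!
# Uniqueness of liftings of homomorphisms (helper86)

`un`: if `u₁`, `u₂` are congruent modulo `I` and both intertwine `g` and `g₁`, where the coefficients of `g₁` of
index prime to `p` and of index `< d` are in `I` and the coefficient of index `d ≥ 1` is a unit, then `u₁ = u₂`.
-/

open PowerSeries

namespace Pool.Agent.H86.NF

variable {B : Type*} [CommRing B]

/-- powers of a series whose coefficients below `d` are in `I` -/
theorem coeff_pow_mem {I : Ideal B} {d : ℕ} {g : B⟦X⟧} (hd : ∀ i < d, coeff i g ∈ I) (l : ℕ) :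
    (∀ n < d * l, coeff n (g ^ l) ∈ I) ∧ coeff (d * l) (g ^ l) - (coeff d g) ^ l ∈ I := by
  have h1 : X ^ d ∣ PowerSeries.map (Ideal.Quotient.mk I) g := by
    rw [X_pow_dvd_iff]
    intro m hm
    rw [coeff_map, Ideal.Quotient.eq_zero_iff_mem]
    exact hd m hm
  obtain ⟨s, hs⟩ := h1
  have h2 : PowerSeries.map (Ideal.Quotient.mk I) (g ^ l) = X ^ (d * l) * s ^ l := by
    rw [map_pow, hs, mul_pow, ← pow_mul]
  constructor
  · intro n hn
    rw [← Ideal.Quotient.eq_zero_iff_mem, ← coeff_map, h2, coeff_X_pow_mul', if_neg (not_le.mpr hn)]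
  · rw [← Ideal.Quotient.eq_zero_iff_mem, map_sub, ← coeff_map, h2, map_pow, ← coeff_map, hs,
      coeff_X_pow_mul', if_pos le_rfl, coeff_X_pow_mul', if_pos le_rfl, Nat.sub_self, Nat.sub_self,
      coeff_zero_eq_constantCoeff_apply, coeff_zero_eq_constantCoeff_apply, map_pow, sub_self]

/-- `e ∘ g ≡ 0 mod J` forces `e ≡ 0 mod J`, if `e ≡ 0 mod K`, `K * I ≤ J` -/
theorem left_cancel {I J K : Ideal B} (hKJ : K * I ≤ J) {d : ℕ} {e g : B⟦X⟧} (hd1 : 1 ≤ d)
    (hg0 : constantCoeff g = 0) (hd : ∀ i < d, coeff i g ∈ I) (hu : IsUnit (coeff d g))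
    (he : ∀ i, coeff i e ∈ K) (h : ∀ i, coeff i (cm e g) ∈ J) : ∀ i, coeff i e ∈ J := by
  intro i
  induction i using Nat.strong_induction_on with
  | _ i ih =>
    have h1 := h (d * i)
    rw [cm, coeff_subst' (hsub hg0)] at h1
    have hfin := coeff_subst_finite' (hsub hg0) e (d * i)
    have h2 : (∑ᶠ l, coeff l e • coeff (d * i) (g ^ l)) - coeff i e • coeff (d * i) (g ^ i) ∈ J := by
      have hs : (∑ᶠ l, coeff l e • coeff (d * i) (g ^ l)) =
          ∑ l ∈ (hfin.toFinset ∪ {i}), coeff l e • coeff (d * i) (g ^ l) := by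
        apply finsum_eq_sum_of_support_subset
        intro x hx
        rw [Finset.coe_union]
        left
        simpa using hx
      rw [hs, ← Finset.sum_erase_add _ _ (Finset.mem_union_right _ (Finset.mem_singleton_self i)),
        add_sub_cancel_right]
      refine Ideal.sum_mem _ fun l hl => ?_
      have hli : l ≠ i := Finset.ne_of_mem_erase hl
      rw [smul_eq_mul]
      rcases lt_or_gt_of_ne hli with h3 | h3
      · exact Ideal.mul_mem_right _ _ (ih l h3)
      · apply hKJ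
        refine Ideal.mul_mem_mul (he l) ((coeff_pow_mem hd l).1 _ ?_)
        exact (Nat.mul_lt_mul_left (by omega)).mpr h3
    have h3 : coeff i e * coeff (d * i) (g ^ i) ∈ J := by
      have h4 := sub_mem h1 h2
      rwa [sub_sub_cancel, smul_eq_mul] at h4
    have h4 : coeff i e * (coeff (d * i) (g ^ i) - (coeff d g) ^ i) ∈ J :=
      hKJ (Ideal.mul_mem_mul (he i) (coeff_pow_mem hd i).2)
    have h5 : coeff i e * (coeff d g) ^ i ∈ J := by
      have h6 := sub_mem h3 h4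
      rwa [← mul_sub, sub_sub_cancel] at h6
    exact (Ideal.unit_mul_mem_iff_mem J (hu.pow i)).mp (by rwa [mul_comm] at h5)

theorem un_aux {p : ℕ} [Fact p.Prime] [CharP B p] {I : Ideal B} [IsHausdorff I B] {d : ℕ}
    (hd1 : 1 ≤ d) {g w : B⟦X⟧} (hg0 : constantCoeff g = 0)
    (hp : ∀ i, ¬ p ∣ i → coeff i g ∈ I) (hd : ∀ i < d, coeff i g ∈ I) (hu : IsUnit (coeff d g))
    (hw0 : constantCoeff w = 0) (hw : Sm I w X) (h : cm w g = cm g w) : w = X := by
  have key : ∀ j, Sm (I ^ (j + 1)) w X := by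
    intro j
    induction j with
    | zero =>
      rw [zero_add, pow_one]
      exact hw
    | succ j ih =>
      have k1 := pert (Nat.le_add_left 1 j) hp hw0 ih
      rw [← h, left_eq w hg0] at k1
      have k2 : ∀ i, coeff i (cm (w - X) g) ∈ I ^ (j + 1 + 1) := by
        intro i
        have := k1 i
        rwa [map_add, add_sub_cancel_left] at this
      have k3 := left_cancel (K := I ^ (j + 1)) (I := I) (J := I ^ (j + 1 + 1))
        (by rw [← pow_succ]) hd1 hg0 hd hu (fun i => by rw [map_sub]; exact ih i) k2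
      intro i
      have := k3 i
      rwa [map_sub] at this
  refine sm_of_all (I := I) fun j => ?_
  exact (key j).mono (Ideal.pow_le_pow_right (Nat.le_succ j))

/-- transport of a conjugation to a single series -/
theorem conj_aux {g g₁ g₂ u₁ u₂ v : B⟦X⟧} (hg0 : constantCoeff g = 0) (hc₁ : constantCoeff g₁ = 0)
    (hu₁ : constantCoeff u₁ = 0) (hu₂ : constantCoeff u₂ = 0) (hv0 : constantCoeff v = 0)
    (huv : cm u₁ v = X) (hvu : cm v u₁ = X) (e₁ : cm u₁ g = cm g₁ u₁) (e₂ : cm u₂ g = cm g₂ u₂) :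
    cm (cm u₂ v) g₁ = cm g₂ (cm u₂ v) := by
  have h1 : cm v g₁ = cm g v := by
    calc cm v g₁ = cm v (cm g₁ (cm u₁ v)) := by rw [huv, comp_X]
      _ = cm v (cm (cm g₁ u₁) v) := by rw [comp_assoc g₁ hu₁ hv0]
      _ = cm v (cm (cm u₁ g) v) := by rw [e₁]
      _ = cm v (cm u₁ (cm g v)) := by rw [comp_assoc u₁ hg0 hv0]
      _ = cm (cm v u₁) (cm g v) := by rw [comp_assoc v hu₁ (cz_comp hg0 hv0)]
      _ = cm g v := by rw [hvu, X_comp (cz_comp hg0 hv0)]
  rw [comp_assoc u₂ hv0 hc₁, h1, ← comp_assoc u₂ hg0 hv0, e₂, comp_assoc g₂ hu₂ hv0]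

/-- **UN**: a series intertwining `g` and `g₁` is determined by its reduction. -/
theorem un {p : ℕ} [Fact p.Prime] [CharP B p] {I : Ideal B} [IsAdicComplete I B] {d : ℕ}
    (hd1 : 1 ≤ d) {g g₁ u₁ u₂ : B⟦X⟧} (hg0 : constantCoeff g = 0) (hg₁0 : constantCoeff g₁ = 0)
    (hp : ∀ i, ¬ p ∣ i → coeff i g₁ ∈ I) (hd : ∀ i < d, coeff i g₁ ∈ I)
    (hu : IsUnit (coeff d g₁)) (hu₁ : constantCoeff u₁ = 0) (hu₂ : constantCoeff u₂ = 0)
    (hunit : IsUnit (coeff 1 u₁)) (h12 : Sm I u₁ u₂) (e₁ : cm u₁ g = cm g₁ u₁)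
    (e₂ : cm u₂ g = cm g₁ u₂) : u₁ = u₂ := by
  obtain ⟨v, hv0, huv, hvu⟩ := exists_inv hu₁ hunit
  have hw0 : constantCoeff (cm u₂ v) = 0 := cz_comp hu₂ hv0
  have hw : Sm I (cm u₂ v) X := by
    have h := h12.symm.comp hv0 hv0 (Sm.refl I v)
    rwa [huv] at h
  have hX := un_aux (I := I) hd1 hg₁0 hp hd hu hw0 hw
    (conj_aux hg0 hg₁0 hu₁ hu₂ hv0 huv hvu e₁ e₂)
  calc u₁ = cm X u₁ := by rw [X_comp hu₁]
    _ = cm (cm u₂ v) u₁ := by rw [hX]
    _ = cm u₂ (cm v u₁) := by rw [comp_assoc u₂ hv0 hu₁]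
    _ = u₂ := by rw [hvu, comp_X]

end Pool.Agent.H86.NF
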